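import Pool.Agent.X306.EM.Ind

set_option autoImplicit false
set_option linter.unusedVariables false
set_option linter.unusedSectionVars false
set_option linter.unusedSimpArgs false

/-!
# The de Rham-Betti groups of elliptic and multiplicative 1-motives
-/

open scoped PeriodPair
open Module Matrix

noncomputable section

namespace Pool.Agent.X306.EM

open H667R3 W245.EB Pool.Agent.TH119.MX Pool.Agent.TH119.DR

variable {C : Type} [Fintype C] [DecidableEq C] {R : C → Type} [∀ c, Fintype (R c)]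
  [∀ c, DecidableEq (R c)] {J : Type} [Fintype J] [DecidableEq J]

/-- the rational numbers as a subfield of the complex numbers -/
def QQ : Subfield ℂ := (algebraMap ℚ ℂ).fieldRange

theorem mem_QQ {x : ℂ} : x ∈ QQ ↔ ∃ q : ℚ, (q : ℂ) = x := by
  unfold QQ
  rw [RingHom.mem_fieldRange]
  simp

theorem QQ_le : QQ ≤ QB := by
  intro x hx
  obtain ⟨q, rfl⟩ := mem_QQ.1 hx
  rw [mem_QB]
  exact isAlgebraic_algebraMap (R := ℚ) (A := ℂ) q

theorem QB_iff : ∀ x : ℂ, IsAlgebraic ℚ x ↔ x ∈ QB := fun x => mem_QB.symm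

theorem sqc : SqClosed QB := by
  intro z hz
  rw [mem_QB] at hz ⊢
  rw [← _root_.sq] at hz
  exact hz.of_pow two_pos

theorem map_mul_der (δ : Derivation ℚ ℂ ℂ) (x y : M2) : (x * y).map δ = x.map δ * y + x * y.map δ := by
  ext i j
  simp only [Matrix.map_apply, Matrix.mul_apply, Matrix.add_apply, Fin.sum_univ_two, map_add, Derivation.leibniz,
    smul_eq_mul]
  ring

/-- the part of the Lie algebra which belongs to two curves -/
theorem pair_main {L : C → PeriodPair} (h2 : ∀ c, IsAlgebraic ℚ (L c).g₂) (h3 : ∀ c, IsAlgebraic ℚ (L c).g₃)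
    {u : (c : C) → R c → ℂ} {l : J → ℂ} (hI : Indep (pers L u l) QB) {S : Submodule ℂ (LT C R J)}
    (hS : Good (pers L u l) QQ QB S) {c c' : C}
    (hiso : ∀ α : ℂ, (∀ w ∈ (L c').lattice, α * w ∈ (L c).lattice) → α = 0) {x : M2} (hx : x.trace = 0) :
    ∃ X ∈ S, q0 (X.1 c) = x ∧ q0 (X.1 c') = 0 := by
  have hKA : ∀ x : ℂ, IsAlgebraic ℚ x → x ∈ QB := fun x => (QB_iff x).1
  let T : Submodule ℂ (M2 × M2) := S.map ((prq c).prod (prq c'))
  have hmemT : ∀ p, p ∈ T ↔ ∃ X ∈ S, q0 (X.1 c) = p.1 ∧ q0 (X.1 c') = p.2 := by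
    intro p
    constructor
    · rintro ⟨X, hX, rfl⟩
      exact ⟨X, hX, rfl, rfl⟩
    · rintro ⟨X, hX, e1, e2⟩
      exact ⟨X, hX, Prod.ext e1 e2⟩
  have h := gours (F := QQ) T ?_ ?_ ?_ ?_ ?_
  · rcases h with h | ⟨A, hA1, hA2, hA3⟩
    · exact (hmemT _).1 (h x hx)
    · exfalso
      set D := pers L u l with hD
      have key : ∀ δ : Derivation ℚ ℂ ℂ, (D.P' c' * A * D.P c).map δ = 0 := by
        intro δ
        have hA0 : A.map δ = 0 := by
          ext i j
          exact deriv_alg δ ((QB_iff _).2 (QQ_le (hA1 i j)))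
        have hl := hS.hder δ
        have h5 := hA3 (q0 ((lam D δ).1 c), q0 ((lam D δ).1 c')) ((hmemT _).2 ⟨lam D δ, hl, rfl, rfl⟩)
        simp only at h5
        have h6 : A * (lam D δ).1 c = (lam D δ).1 c' * A := by
          rw [eq_q0_add ((lam D δ).1 c), eq_q0_add ((lam D δ).1 c'), hS.htr _ hl c, hS.htr _ hl c',
            Matrix.mul_add, Matrix.add_mul, h5, Matrix.mul_smul, Matrix.smul_mul, Matrix.mul_one, Matrix.one_mul]
        have e1 : (lam D δ).1 c = (D.P c).map δ * D.P' c := rfl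
        have e2 : (lam D δ).1 c' = (D.P c').map δ * D.P' c' := rfl
        rw [e1, e2] at h6
        have h7 : A * (D.P c).map δ = (D.P c').map δ * D.P' c' * A * D.P c := by
          calc A * (D.P c).map δ = A * ((D.P c).map δ * D.P' c) * D.P c := by
                rw [Matrix.mul_assoc, Matrix.mul_assoc, D.P'P, Matrix.mul_one]
            _ = _ := by rw [h6]
        have h8 : A * D.P c = D.P c' * (D.P' c' * A * D.P c) := by
          rw [← Matrix.mul_assoc, ← Matrix.mul_assoc, D.PP', Matrix.one_mul]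
        have h9 : (A * D.P c).map δ = (D.P c' * (D.P' c' * A * D.P c)).map δ := by rw [← h8]
        rw [map_mul_der, map_mul_der, hA0, Matrix.zero_mul, zero_add, h7] at h9
        have h10 : D.P c' * (D.P' c' * A * D.P c).map δ = 0 := by
          have h11 : (D.P c').map δ * D.P' c' * A * D.P c = (D.P c').map δ * (D.P' c' * A * D.P c) := by
            simp only [Matrix.mul_assoc]
          rw [h11] at h9
          have h12 := sub_eq_zero.2 h9
          rw [sub_add_cancel_left, neg_eq_zero] at h12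
          exact h12
        calc (D.P' c' * A * D.P c).map δ = D.P' c' * (D.P c' * (D.P' c' * A * D.P c).map δ) := by
              rw [← Matrix.mul_assoc, D.P'P, Matrix.one_mul]
          _ = 0 := by rw [h10, Matrix.mul_zero]
      have halg : ∀ i j, IsAlgebraic ℚ ((D.P' c' * A * D.P c) i j) := by
        intro i j
        by_contra hcon
        obtain ⟨δ, hδ⟩ := exists_deriv hcon
        exact hδ (congrFun (congrFun (key δ) i) j)
      choose a ha using fun p : Fin 2 × Fin 2 => mem_QQ.1 (hA1 p.1 p.2)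
      obtain ⟨N, hN, hc⟩ := exists_den_rat a
      choose b hb using hc
      have hNC : (N : ℂ) ≠ 0 := by exact_mod_cast hN.ne'
      have hbA : ∀ i j, (b (i, j) : ℂ) = N * A i j := by
        intro i j
        rw [← ha (i, j)]
        exact_mod_cast (hb (i, j)).symm
      have h8 : A * D.P c = D.P c' * (D.P' c' * A * D.P c) := by
        rw [← Matrix.mul_assoc, ← Matrix.mul_assoc, D.PP', Matrix.one_mul]
      set Y := D.P' c' * A * D.P c with hY
      have e00 := congrFun (congrFun h8 0) 0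
      have e10 := congrFun (congrFun h8 1) 0
      simp only [hD, pers, Matrix.mul_apply, Fin.sum_univ_two, Matrix.of_apply, Matrix.cons_val',
        Matrix.cons_val_zero, Matrix.cons_val_one, Matrix.cons_val_fin_one] at e00 e10
      refine pair_false (h2 c) (h3 c) (h2 c') (h3 c') hiso (fun i j => b (i, j)) ?_ (N * Y 0 0) (N * Y 1 0)
        ((isAlgebraic_algebraMap (R := ℚ) (A := ℂ) (N : ℚ) |> fun h => by simpa using h : IsAlgebraic ℚ (N : ℂ)).mul (halg 0 0))
        ((isAlgebraic_algebraMap (R := ℚ) (A := ℂ) (N : ℚ) |> fun h => by simpa using h : IsAlgebraic ℚ (N : ℂ)).mul (halg 1 0)) ?_ ?_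
      · intro h0
        apply hA2
        have h1 : ((b (0, 0) * b (1, 1) - b (0, 1) * b (1, 0) : ℤ) : ℂ) = 0 := by rw [h0, Int.cast_zero]
        push_cast at h1
        rw [hbA, hbA, hbA, hbA] at h1
        have h2 : (N : ℂ) * N * (A 0 0 * A 1 1 - A 0 1 * A 1 0) = 0 := by linear_combination h1
        exact (mul_eq_zero.1 h2).resolve_left (mul_ne_zero hNC hNC)
      · rw [hbA, hbA]
        linear_combination (N : ℂ) * e00
      · rw [hbA, hbA]
        linear_combination (N : ℂ) * e10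
  · intro p hp
    obtain ⟨X, hX, e1, e2⟩ := (hmemT _).1 hp
    rw [← e1, ← e2]
    exact ⟨trace_q0 _, trace_q0 _⟩
  · intro p hp q hq
    obtain ⟨X, hX, e1, e2⟩ := (hmemT _).1 hp
    obtain ⟨Y, hY, e3, e4⟩ := (hmemT _).1 hq
    refine (hmemT _).2 ⟨br X Y, hS.hbr _ hX _ hY, ?_, ?_⟩
    · rw [q0_br, e1, e3]
    · rw [q0_br, e2, e4]
  · intro f p hp
    obtain ⟨X, hX, e1, e2⟩ := (hmemT _).1 hp
    refine (hmemT _).2 ⟨mp f X, hS.hF f _ hX, ?_, ?_⟩
    · rw [← e1]
      exact q0_map f _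
    · rw [← e2]
      exact q0_map f _
  · intro y hy
    obtain ⟨X, hX, e⟩ := hS.surj hI QQ_le sqc hKA c hy
    exact ⟨_, (hmemT _).2 ⟨X, hX, e, rfl⟩⟩
  · intro y hy
    obtain ⟨X, hX, e⟩ := hS.surj hI QQ_le sqc hKA c' hy
    exact ⟨_, (hmemT _).2 ⟨X, hX, rfl, e⟩⟩

/-- **Groups defined over the rational numbers.** -/
theorem main_rat {L : C → PeriodPair} (h2 : ∀ c, IsAlgebraic ℚ (L c).g₂) (h3 : ∀ c, IsAlgebraic ℚ (L c).g₃)
    (hCM : ∀ c, ∀ α : ℂ, (∀ w ∈ (L c).lattice, α * w ∈ (L c).lattice) → ∃ n : ℤ, α = n)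
    (hiso : ∀ c c', c ≠ c' → ∀ α : ℂ, (∀ w ∈ (L c).lattice, α * w ∈ (L c').lattice) → α = 0)
    {u : (c : C) → R c → ℂ} (hu : ∀ c r, u c r ∉ (L c).lattice ∧ IsAlgebraic ℚ (℘[L c] (u c r)))
    (hui : ∀ c, ∀ n : R c → ℤ, ∑ r, (n r : ℂ) * u c r ∈ (L c).lattice → n = 0)
    {l : J → ℂ} (hl : ∀ j, IsAlgebraic ℚ (Complex.exp (l j)))
    (hli : ∀ n : J → ℤ, Complex.exp (∑ j, (n j : ℂ) * l j) = 1 → n = 0)
    {H : Set (Matrix (Ix C R J) (Ix C R J) ℂ)} (hH : AlgGrp QQ H)
    {A A' : Matrix (Ix C R J) (Ix C R J) ℂ} (hA : A * A' = 1) (hA' : ∀ i j, A' i j ∈ QB)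
    (hPA : pm (pers L u l) * A ∈ H) {x : LT C R J} (hx : ∀ c, (x.1 c).det = x.2.2.1) (h0 : x.2.2.1 ≠ 0) :
    bm x 1 ∈ H :=
  grp_main hH QQ_le QB_iff (pers_leg L u l) (pers_indep h2 h3 hCM hu hui hl hli) hA hA' hPA
    (fun d hS c c' hcc x hx => pair_main h2 h3 (pers_indep h2 h3 hCM hu hui hl hli) hS
      (hiso c' c (Ne.symm hcc)) hx) hx h0

/-- **Groups defined over the algebraic numbers, one curve.** -/
theorem main_alg [Subsingleton C] {L : C → PeriodPair} (h2 : ∀ c, IsAlgebraic ℚ (L c).g₂)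
    (h3 : ∀ c, IsAlgebraic ℚ (L c).g₃)
    (hCM : ∀ c, ∀ α : ℂ, (∀ w ∈ (L c).lattice, α * w ∈ (L c).lattice) → ∃ n : ℤ, α = n)
    {u : (c : C) → R c → ℂ} (hu : ∀ c r, u c r ∉ (L c).lattice ∧ IsAlgebraic ℚ (℘[L c] (u c r)))
    (hui : ∀ c, ∀ n : R c → ℤ, ∑ r, (n r : ℂ) * u c r ∈ (L c).lattice → n = 0)
    {l : J → ℂ} (hl : ∀ j, IsAlgebraic ℚ (Complex.exp (l j)))
    (hli : ∀ n : J → ℤ, Complex.exp (∑ j, (n j : ℂ) * l j) = 1 → n = 0)
    {H : Set (Matrix (Ix C R J) (Ix C R J) ℂ)} (hH : AlgGrp QB H)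
    {A A' : Matrix (Ix C R J) (Ix C R J) ℂ} (hA : A * A' = 1) (hA' : ∀ i j, A' i j ∈ QB)
    (hPA : pm (pers L u l) * A ∈ H) {x : LT C R J} (hx : ∀ c, (x.1 c).det = x.2.2.1) (h0 : x.2.2.1 ≠ 0) :
    bm x 1 ∈ H :=
  grp_main hH le_rfl QB_iff (pers_leg L u l) (pers_indep h2 h3 hCM hu hui hl hli) hA hA' hPA
    (fun d hS c c' hcc x hx => absurd (Subsingleton.elim c c') hcc) hx h0

end Pool.Agent.X306.EM
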