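import Pool.Agent.X306.EM.Fz

set_option autoImplicit false
set_option linter.unusedVariables false
set_option linter.unusedSectionVars false
set_option linter.unusedSimpArgs false

/-!
# The transcendence theorem for integrals of the second kind on several curves

Adapted from `Pool/Agent/W245/EB/CoreZ.lean` (one curve).
-/

open Filter MvPolynomial NumberField
open scoped Topology PeriodPair

noncomputable section

namespace Pool.Agent.X306.EM

open H667R3 W245.EB

lemma exists_q {L : PeriodPair} (h2 : IsAlgebraic ℚ L.g₂) (h3 : IsAlgebraic ℚ L.g₃) {n : ℕ}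
    (V : Fin n → ℂ) : ∃ q : ℂ, q ∈ EL L ∧ q ∉ L.lattice ∧
      ∀ m : Fin n → ℕ, 2 * (∑ k, (m k : ℂ) * V k + q) ∉ L.lattice := by
  classical
  have hω₁ : L.ω₁ ∈ L.lattice := L.ω₁_mem_lattice
  have hω₁0 : L.ω₁ ≠ 0 := by
    intro h
    have := L.ω₁_div_two_notMem_lattice
    rw [h, zero_div] at this
    exact this (zero_mem _)
  set Gs : Finset ℂ := (Finset.univ.image fun z : Fin n => 2 * V z) ∪
    {L.ω₁, L.ω₂} with hGs
  set G : Submodule ℤ ℂ := Submodule.span ℤ (Gs : Set ℂ) with hG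
  have hGfg : G.FG := ⟨Gs, rfl⟩
  obtain ⟨e, he⟩ := exists_notMem G hGfg hω₁0
  have hlatG : ∀ w ∈ L.lattice, w ∈ G := by
    intro w hw
    obtain ⟨a, a', e⟩ := PeriodPair.mem_lattice.1 hw
    rw [← e]
    have h1 : L.ω₁ ∈ G := Submodule.subset_span (by simp [hGs])
    have h2 : L.ω₂ ∈ G := Submodule.subset_span (by simp [hGs])
    have h3 := G.add_mem (G.smul_mem a h1) (G.smul_mem a' h2)
    simpa using h3
  have h2q : 2 * (L.ω₁ / 2 ^ (e + 1)) ∉ G := by
    have : 2 * (L.ω₁ / 2 ^ (e + 1)) = L.ω₁ / 2 ^ e := by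
      rw [pow_succ]
      field_simp
    rw [this]
    exact he
  refine ⟨L.ω₁ / 2 ^ (e + 1), div_two_pow_EL h2 h3 (Or.inl hω₁) _, ?_, ?_⟩
  · intro h
    exact h2q (hlatG _ (by rw [two_mul]; exact add_mem h h))
  · intro m hmem
    apply h2q
    have h1 : 2 * (∑ k, (m k : ℂ) * V k) ∈ G := by
      rw [Finset.mul_sum]
      apply Submodule.sum_mem
      intro k _
      have h4 : 2 * ((m k : ℂ) * V k) = ((m k : ℤ)) • (2 * V k) := by
        rw [zsmul_eq_mul]
        push_cast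
        ring
      rw [h4]
      refine G.smul_mem _ (Submodule.subset_span ?_)
      rw [hGs]
      simp only [Finset.coe_union, Set.mem_union, Finset.coe_image]
      left
      exact ⟨k, by simp, rfl⟩
    have h4 := G.sub_mem (hlatG _ hmem) h1
    rwa [show 2 * ((∑ k, (m k : ℂ) * V k) + L.ω₁ / 2 ^ (e + 1)) - 2 * (∑ k, (m k : ℂ) * V k) =
      2 * (L.ω₁ / 2 ^ (e + 1)) by ring] at h4

theorem crm {n : ℕ} {L : Fin n → PeriodPair} (h2 : ∀ j, IsAlgebraic ℚ (L j).g₂)
    (h3 : ∀ j, IsAlgebraic ℚ (L j).g₃) (hn : 0 < n)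
    (s ρ : Fin n → ℂ) (hsa : ∀ j, IsAlgebraic ℚ (s j)) (hρa : ∀ j, IsAlgebraic ℚ (ρ j)) (j0 : Fin n)
    (hsρ : s j0 ≠ 0 ∨ ρ j0 ≠ 0)
    (U : Fin n → Fin n → ℂ) (hU : LinearIndependent ℂ U) (hUE : ∀ k j, U k j ∈ EL (L j))
    (hUf : ∀ k, IsAlgebraic ℚ (∑ j, (s j * zt (L j) (U k j) + ρ j * U k j))) : False := by
  classical
  choose q hqE hq' hne0 using fun j => exists_q (h2 j) (h3 j) (fun k => U k j)
  have hcoord : ∀ (m : Fin n → ℕ) j, (∑ k, (m k : ℂ) • U k) j = ∑ k, (m k : ℂ) * U k j := by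
    intro m j
    simp [Finset.sum_apply]
  have hne : ∀ (m : Fin n → ℕ) j, 2 * ((∑ k, (m k : ℂ) • U k) j + q j) ∉ (L j).lattice := by
    intro m j
    rw [hcoord]
    exact hne0 j m
  have halg : ∀ j, ∀ u ∈ EL (L j), u ∉ (L j).lattice → IsAlgebraic ℚ (℘[L j] u) ∧ IsAlgebraic ℚ (℘'[L j] u) := by
    intro j u hu hu'
    have := hu.resolve_left hu'
    exact ⟨this, wp'_alg (h2 j) (h3 j) hu' this⟩
  -- the field
  set F1 : Finset ℂ := Finset.univ.image fun z : Fin n × Fin n =>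
    if U z.1 z.2 ∈ (L z.2).lattice then 0 else ℘[L z.2] (U z.1 z.2) with hF1
  set F2 : Finset ℂ := Finset.univ.image fun z : Fin n × Fin n =>
    if U z.1 z.2 ∈ (L z.2).lattice then 0 else ℘'[L z.2] (U z.1 z.2) with hF2
  set F3 : Finset ℂ := (Finset.univ.image s ∪ Finset.univ.image ρ) ∪ Finset.univ.image (fun j => (L j).g₂) with hF3
  set F4 : Finset ℂ := Finset.univ.image (fun k => ∑ j, (s j * zt (L j) (U k j) + ρ j * U k j)) with hF4
  set F5 : Finset ℂ := Finset.univ.image (fun j => ℘[L j] (q j)) ∪ Finset.univ.image (fun j => ℘'[L j] (q j)) with hF5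
  set F6 : Finset ℂ := (Finset.univ.image (fun j => ℘[L j] ((L j).ω₁ / 2)) ∪
    Finset.univ.image (fun j => ℘[L j] ((L j).ω₂ / 2))) ∪
    Finset.univ.image (fun j => ℘[L j] (((L j).ω₁ + (L j).ω₂) / 2)) with hF6
  set F : Finset ℂ := F1 ∪ F2 ∪ F3 ∪ F4 ∪ F5 ∪ F6 with hF
  have hFalg : ∀ x ∈ F, IsAlgebraic ℚ x := by
    intro x hx
    rw [hF, hF1, hF2, hF3, hF4, hF5, hF6] at hx
    simp only [Finset.mem_union, Finset.mem_image, Finset.mem_univ, true_and] at hx
    rcases hx with ((((⟨z, rfl⟩ | ⟨z, rfl⟩) | ((⟨z, rfl⟩ | ⟨z, rfl⟩) | ⟨z, rfl⟩)) | ⟨z, rfl⟩) |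
      (⟨z, rfl⟩ | ⟨z, rfl⟩)) | ((⟨z, rfl⟩ | ⟨z, rfl⟩) | ⟨z, rfl⟩)
    · split_ifs with hz
      · exact isAlgebraic_zero
      · exact (halg _ _ (hUE _ _) hz).1
    · split_ifs with hz
      · exact isAlgebraic_zero
      · exact (halg _ _ (hUE _ _) hz).2
    · exact hsa z
    · exact hρa z
    · exact h2 z
    · exact hUf z
    · exact (halg _ _ (hqE z) (hq' z)).1
    · exact (halg _ _ (hqE z) (hq' z)).2
    · exact mem_QB.1 (half_mem_QB (h2 z) (h3 z) _ (L z).ω₁_mem_lattice)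
    · exact mem_QB.1 (half_mem_QB (h2 z) (h3 z) _ (L z).ω₂_mem_lattice)
    · exact mem_QB.1 (half_mem_QB (h2 z) (h3 z) _ (add_mem (L z).ω₁_mem_lattice (L z).ω₂_mem_lattice))
  set K : IntermediateField ℚ ℂ := IntermediateField.adjoin ℚ (F : Set ℂ) with hK
  have hKfin : FiniteDimensional ℚ K :=
    IntermediateField.finiteDimensional_adjoin (fun x hx => (hFalg x hx).isIntegral)
  have hFK : ∀ x ∈ F, x ∈ K := fun x hx => IntermediateField.subset_adjoin ℚ _ hx
  have hgK : ∀ j, (L j).g₂ ∈ K.toSubfield := fun j => hFK _ (by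
    rw [hF, hF3]; simp only [Finset.mem_union, Finset.mem_image, Finset.mem_univ, true_and]
    exact Or.inl (Or.inl (Or.inl (Or.inr (Or.inr ⟨j, rfl⟩)))))
  have hsK : ∀ j, s j ∈ K := fun j => hFK _ (by
    rw [hF, hF3]; simp only [Finset.mem_union, Finset.mem_image, Finset.mem_univ, true_and]
    exact Or.inl (Or.inl (Or.inl (Or.inr (Or.inl (Or.inl ⟨j, rfl⟩))))))
  have hρK : ∀ j, ρ j ∈ K := fun j => hFK _ (by
    rw [hF, hF3]; simp only [Finset.mem_union, Finset.mem_image, Finset.mem_univ, true_and]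
    exact Or.inl (Or.inl (Or.inl (Or.inr (Or.inl (Or.inr ⟨j, rfl⟩))))))
  have hhK : ∀ j, HalfMem (L j) K.toSubfield := by
    intro j
    apply halfMem_of
    · exact hFK _ (by
        rw [hF, hF6]; simp only [Finset.mem_union, Finset.mem_image, Finset.mem_univ, true_and]
        exact Or.inr (Or.inl (Or.inl ⟨j, rfl⟩)))
    · exact hFK _ (by
        rw [hF, hF6]; simp only [Finset.mem_union, Finset.mem_image, Finset.mem_univ, true_and]
        exact Or.inr (Or.inl (Or.inr ⟨j, rfl⟩)))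
    · exact hFK _ (by
        rw [hF, hF6]; simp only [Finset.mem_union, Finset.mem_image, Finset.mem_univ, true_and]
        exact Or.inr (Or.inr ⟨j, rfl⟩))
  have hqK : ∀ j, q j ∈ GK (L j) K.toSubfield := by
    intro j
    right
    exact ⟨hFK _ (by
        rw [hF, hF5]; simp only [Finset.mem_union, Finset.mem_image, Finset.mem_univ, true_and]
        exact Or.inl (Or.inr (Or.inl ⟨j, rfl⟩))), hFK _ (by
        rw [hF, hF5]; simp only [Finset.mem_union, Finset.mem_image, Finset.mem_univ, true_and]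
        exact Or.inl (Or.inr (Or.inr ⟨j, rfl⟩)))⟩
  have hUK : ∀ k j, U k j ∈ GK (L j) K.toSubfield := by
    intro k j
    by_cases hmem : U k j ∈ (L j).lattice
    · exact Or.inl hmem
    · right
      constructor
      · apply hFK
        rw [hF]
        simp only [Finset.mem_union]
        left; left; left; left; left
        exact Finset.mem_image.2 ⟨(k, j), Finset.mem_univ _, by simp [hmem]⟩
      · apply hFK
        rw [hF]
        simp only [Finset.mem_union]
        left; left; left; left; right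
        exact Finset.mem_image.2 ⟨(k, j), Finset.mem_univ _, by simp [hmem]⟩
  have hUfK : ∀ k, ∑ j, (s j * zt (L j) (U k j) + ρ j * U k j) ∈ K := by
    intro k
    apply hFK
    rw [hF]
    simp only [Finset.mem_union]
    left; left; right
    exact Finset.mem_image.2 ⟨k, Finset.mem_univ _, rfl⟩
  have hptH : ∀ (m : Fin n → ℕ) j, ((∑ k, (m k : ℂ) • U k) j + q j,
      ∑ k, (m k : ℂ) * zt (L j) (U k j) + zt (L j) (q j)) ∈ HK (L j) K.toSubfield (hgK j) (hhK j) := by
    intro m j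
    have h1 : (∑ k, m k • ((U k j, zt (L j) (U k j)) : ℂ × ℂ)) + (q j, zt (L j) (q j)) ∈
        HK (L j) K.toSubfield (hgK j) (hhK j) :=
      add_mem (sum_mem fun k _ => nsmul_mem (self_mem_HK (hUK k j)) _) (self_mem_HK (hqK j))
    have h2 : (∑ k, m k • ((U k j, zt (L j) (U k j)) : ℂ × ℂ)) + (q j, zt (L j) (q j)) =
        ((∑ k, (m k : ℂ) • U k) j + q j, ∑ k, (m k : ℂ) * zt (L j) (U k j) + zt (L j) (q j)) := by
      rw [hcoord]
      ext
      · simp [Prod.fst_sum]
      · simp [Prod.snd_sum]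
    rw [← h2]
    exact h1
  have hval : ∀ (m : Fin n → ℕ) j, ℘[L j] ((∑ k, (m k : ℂ) • U k) j + q j) ∈ K ∧
      ℘'[L j] ((∑ k, (m k : ℂ) • U k) j + q j) ∈ K := by
    intro m j
    rcases (mem_HK.1 (hptH m j)).1 with h | h
    · exact absurd h (two_mul_notMem_of (L j) (hne m j))
    · exact h
  have hfK : ∀ m : Fin n → ℕ, fz L s ρ q (∑ k, (m k : ℂ) • U k) ∈ K := by
    intro m
    have h4 : ∀ j, zeta (L j) ((∑ k, (m k : ℂ) • U k) j + q j) -
        (∑ k, (m k : ℂ) * zt (L j) (U k j) + zeta (L j) (q j)) ∈ K := by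
      intro j
      have h5 := (mem_HK.1 (hptH m j)).2
      simp only at h5
      rw [zt_of_notMem (two_mul_notMem_of (L j) (hne m j)), zt_of_notMem (hq' j)] at h5
      exact h5
    have h5 : fz L s ρ q (∑ k, (m k : ℂ) • U k) =
        ∑ k, (m k : ℂ) * (∑ j, (s j * zt (L j) (U k j) + ρ j * U k j)) +
        ∑ j, s j * (zeta (L j) ((∑ k, (m k : ℂ) • U k) j + q j) -
          (∑ k, (m k : ℂ) * zt (L j) (U k j) + zeta (L j) (q j))) := by
      have h6 : ∑ k, (m k : ℂ) * (∑ j, (s j * zt (L j) (U k j) + ρ j * U k j)) =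
          ∑ j, (s j * (∑ k, (m k : ℂ) * zt (L j) (U k j)) + ρ j * ∑ k, (m k : ℂ) * U k j) := by
        simp only [Finset.mul_sum]
        rw [Finset.sum_comm]
        apply Finset.sum_congr rfl
        intro j _
        rw [← Finset.sum_add_distrib]
        apply Finset.sum_congr rfl
        intro k _
        ring
      rw [h6, ← Finset.sum_add_distrib, fz]
      apply Finset.sum_congr rfl
      intro j _
      rw [← hcoord]
      ring
    rw [h5]
    apply add_mem
    · exact sum_mem fun k _ => mul_mem (natCast_mem K _) (hUfK k)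
    · exact sum_mem fun j _ => mul_mem (hsK j) (h4 j)
  have hnf : NumberField K := { to_charZero := inferInstance, to_finiteDimensional := hKfin }
  -- the number of points
  set S : ℕ := AD.Snum n (Module.finrank ℚ K) with hS
  -- denominators
  let pp : (Fin n → Fin S) → (Fin n → ℂ) := fun m => ∑ k, ((m k : ℕ) : ℂ) • U k
  let E1 : Finset K := Finset.univ.image (fun p : Fin n × (Fin n → Fin S) =>
    (⟨_, (hval (fun k => (p.2 k : ℕ)) p.1).1⟩ : K))
  let E2 : Finset K := Finset.univ.image (fun p : Fin n × (Fin n → Fin S) =>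
    (⟨_, (hval (fun k => (p.2 k : ℕ)) p.1).2⟩ : K))
  let E3 : Finset K := Finset.univ.image (fun p : Fin n → Fin S =>
    (⟨_, hfK (fun k => (p k : ℕ))⟩ : K))
  let E4 : Finset K := Finset.univ.image (fun j : Fin n => (⟨s j, hsK j⟩ : K))
  let E5 : Finset K := Finset.univ.image (fun j : Fin n => (⟨ρ j, hρK j⟩ : K))
  have hg2K : ∀ j, (L j).g₂ / 2 ∈ K := fun j => div_mem (hgK j) (ofNat_mem K 2)
  let E6 : Finset K := Finset.univ.image (fun j : Fin n => (⟨(L j).g₂ / 2, hg2K j⟩ : K))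
  obtain ⟨d, hd, hint⟩ := exists_integral_multiples ℤ ℚ
    (E1 ∪ E2 ∪ E3 ∪ E4 ∪ E5 ∪ E6)
  have hdi : ∀ k : ℕ, IsIntegral ℤ ((d : K) ^ k) := fun k => (isIntegral_algebraMap (x := d)).pow k
  have hdI : IsIntegral ℤ (d : K) := isIntegral_algebraMap (x := d)
  have hI1 : ∀ j (m : Fin n → Fin S),
      IsIntegral ℤ ((d : K) * (⟨_, (hval (fun k => (m k : ℕ)) j).1⟩ : K)) := by
    intro j m
    have := hint _ (by
      simp only [Finset.mem_union]
      exact Or.inl (Or.inl (Or.inl (Or.inl (Or.inl (Finset.mem_image.2 ⟨(j, m), Finset.mem_univ _, rfl⟩))))))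
    rwa [zsmul_eq_mul] at this
  have hI2 : ∀ j (m : Fin n → Fin S),
      IsIntegral ℤ ((d : K) * (⟨_, (hval (fun k => (m k : ℕ)) j).2⟩ : K)) := by
    intro j m
    have := hint _ (by
      simp only [Finset.mem_union]
      exact Or.inl (Or.inl (Or.inl (Or.inl (Or.inr (Finset.mem_image.2 ⟨(j, m), Finset.mem_univ _, rfl⟩))))))
    rwa [zsmul_eq_mul] at this
  have hI3 : ∀ (m : Fin n → Fin S),
      IsIntegral ℤ ((d : K) * (⟨_, hfK (fun k => (m k : ℕ))⟩ : K)) := by
    intro m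
    have := hint _ (by
      simp only [Finset.mem_union]
      exact Or.inl (Or.inl (Or.inl (Or.inr (Finset.mem_image.2 ⟨m, Finset.mem_univ _, rfl⟩)))))
    rwa [zsmul_eq_mul] at this
  have hI4 : ∀ j, IsIntegral ℤ ((d : K) * (⟨s j, hsK j⟩ : K)) := by
    intro j
    have := hint _ (by
      simp only [Finset.mem_union]
      exact Or.inl (Or.inl (Or.inr (Finset.mem_image.2 ⟨j, Finset.mem_univ _, rfl⟩))))
    rwa [zsmul_eq_mul] at this
  have hI5 : ∀ j, IsIntegral ℤ ((d : K) * (⟨ρ j, hρK j⟩ : K)) := by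
    intro j
    have := hint _ (by
      simp only [Finset.mem_union]
      exact Or.inl (Or.inr (Finset.mem_image.2 ⟨j, Finset.mem_univ _, rfl⟩)))
    rwa [zsmul_eq_mul] at this
  have hI6 : ∀ j, IsIntegral ℤ ((d : K) * (⟨(L j).g₂ / 2, hg2K j⟩ : K)) := by
    intro j
    have := hint _ (by
      simp only [Finset.mem_union]
      exact Or.inr (Finset.mem_image.2 ⟨j, Finset.mem_univ _, rfl⟩))
    rwa [zsmul_eq_mul] at this
  let emb : 𝓞 K →+* ℂ := (algebraMap K ℂ).comp (algebraMap (𝓞 K) K)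
  let dd : 𝓞 K := ⟨(d : K), hdI⟩
  let gd : Fin n → 𝓞 K := fun j =>
    ⟨(d : K) ^ 3 * ((d : K) * (⟨(L j).g₂ / 2, hg2K j⟩ : K)), (hdi 3).mul (hI6 j)⟩
  let bs : Fin n → 𝓞 K := fun j => ⟨(d : K) * (⟨s j, hsK j⟩ : K), hI4 j⟩
  let br : Fin n → 𝓞 K := fun j =>
    ⟨(d : K) ^ 2 * ((d : K) * (⟨ρ j, hρK j⟩ : K)), (hdi 2).mul (hI5 j)⟩
  have hdC : (((d : K) : K) : ℂ) = (d : ℂ) := by push_cast; rfl
  have hdd : emb dd = d := by
    show (((d : K) : K) : ℂ) = (d : ℂ)
    exact hdC
  have hgd : ∀ j, emb (gd j) = (d : ℂ) ^ 4 * ((L j).g₂ / 2) := by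
    intro j
    show (((d : K) ^ 3 * ((d : K) * (⟨(L j).g₂ / 2, hg2K j⟩ : K)) : K) : ℂ) = (d : ℂ) ^ 4 * ((L j).g₂ / 2)
    push_cast
    ring
  have hbs : ∀ j, emb (bs j) = d * s j := by
    intro j
    show (((d : K) * (⟨s j, hsK j⟩ : K) : K) : ℂ) = d * s j
    push_cast
    ring
  have hbr : ∀ j, emb (br j) = (d : ℂ) ^ 3 * ρ j := by
    intro j
    show (((d : K) ^ 2 * ((d : K) * (⟨ρ j, hρK j⟩ : K)) : K) : ℂ) = (d : ℂ) ^ 3 * ρ j
    push_cast
    ring
  let X : Option (Fin n × Bool) → (Fin n → Fin S) → 𝓞 K := fun p m =>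
    p.elim ⟨(d : K) * (⟨_, hfK (fun k => (m k : ℕ))⟩ : K), hI3 m⟩
      (fun jb => if jb.2 then
        ⟨(d : K) ^ 2 * ((d : K) * (⟨_, (hval (fun k => (m k : ℕ)) jb.1).2⟩ : K)), (hdi 2).mul (hI2 _ _)⟩
        else
        ⟨(d : K) ^ 1 * ((d : K) * (⟨_, (hval (fun k => (m k : ℕ)) jb.1).1⟩ : K)), (hdi 1).mul (hI1 _ _)⟩)
  have hX : ∀ p (m : Fin n → Fin S), algebraMap K ℂ (X p m : K) =
      valz L s ρ q d p (∑ k, ((m k : ℕ) : ℂ) • U k) := by
    intro p m
    rcases p with _ | ⟨j, b⟩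
    · show (((d : K) * (⟨_, hfK (fun k => (m k : ℕ))⟩ : K) : K) : ℂ) = _
      simp only [valz, Option.elim]
      push_cast
      rfl
    · cases b
      · show (((d : K) ^ 1 * ((d : K) * (⟨_, (hval (fun k => (m k : ℕ)) j).1⟩ : K)) : K) : ℂ) = _
        simp only [valz, Option.elim, Bool.false_eq_true, if_false]
        push_cast
        ring
      · show (((d : K) ^ 2 * ((d : K) * (⟨_, (hval (fun k => (m k : ℕ)) j).2⟩ : K)) : K) : ℂ) = _
        simp only [valz, Option.elim, if_true]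
        push_cast
        ring
  have hd2 : (d : ℂ) ^ 2 ≠ 0 := pow_ne_zero _ (by exact_mod_cast hd)
  let data : AD n S :=
    { K := K
      ph := algebraMap K ℂ
      V := Option (Fin n × Bool)
      val := valz L s ρ q d
      O := Oz L q
      isOpen_O := isOpen_Oz L q
      analytic_val := analytic_valz s ρ d
      U := U
      hU := hU
      pt_mem := fun m j => hne (fun k => m k) j
      X := X
      hX := hX
      δ := δz dd gd bs br
      hδ := totalDegree_δz dd gd bs br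
      v := fun j => (d : ℂ) ^ 2 • (Pi.single j 1 : Fin n → ℂ)
      spans_v := by
        intro w
        refine ⟨fun j => w j / (d : ℂ) ^ 2, ?_⟩
        have h1 : ∀ j, (w j / (d : ℂ) ^ 2) • ((d : ℂ) ^ 2 • (Pi.single j 1 : Fin n → ℂ)) =
            Pi.single j (w j) := by
          intro j
          rw [smul_smul, div_mul_cancel₀ _ hd2]
          ext k
          by_cases hk : k = j
          · subst hk
            simp
          · simp [hk]
        simp only [h1]
        rw [Finset.univ_sum_single]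
      D_val := fun j p z hz => D_valz s ρ emb hdd hgd hbs hbr j p z hz
      I := Option (Fin n)
      cardI := by simp
      b := bz
      hb := bz_injective
      Th := Thz L q
      A := Az L s ρ q d
      analytic_Th := analytic_Thz
      analytic_A := analytic_Az s ρ d
      gr_Th := gr_Thz
      gr_A := gr_Az s ρ d
      hTh := fun o z hz => hThz s ρ d o z hz
      Th_ne := fun o m => Thz_ne_zero o (fun j => hne (fun k => m k) j)
      indep := fun P hP => indep_z s ρ hd j0 (exists_quasi_period (L j0) hsρ) P hP }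
  exact AD.false data hn hS

end Pool.Agent.X306.EM
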