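import Pool.Agent.W245.EB.Iz

set_option autoImplicit false
set_option linter.unusedVariables false
set_option linter.unusedSectionVars false
set_option linter.unusedSimpArgs false

/-!
# The functions for the second kind, several curves

Adapted from `Pool/Agent/W245/EB/Fz.lean` (one curve).
-/

open Filter MvPolynomial NumberField
open scoped Topology PeriodPair

noncomputable section

namespace Pool.Agent.X306.EM

open H667R3 W245.EB

variable {n : ℕ} (L : Fin n → PeriodPair) (s ρ q : Fin n → ℂ)

/-- the function of the second kind -/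
def fz (z : Fin n → ℂ) : ℂ := ∑ i, (s i * (zeta (L i) (z i + q i) - zeta (L i) (q i)) + ρ i * z i)

/-- the domain -/
def Oz : Set (Fin n → ℂ) := {z | ∀ j, 2 * (z j + q j) ∉ (L j).lattice}

/-- the functions -/
def valz (d : ℤ) (p : Option (Fin n × Bool)) (z : Fin n → ℂ) : ℂ :=
  p.elim (d * fz L s ρ q z)
    (fun jb => if jb.2 then (d : ℂ) ^ 3 * ℘'[L jb.1] (z jb.1 + q jb.1) else (d : ℂ) ^ 2 * ℘[L jb.1] (z jb.1 + q jb.1))

lemma isOpen_Oz : IsOpen (Oz L q) := by
  have : Oz L q = ⋂ i : Fin n, (fun z : Fin n → ℂ => 2 * (z i + q i)) ⁻¹' ((L i).lattice : Set ℂ)ᶜ := by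
    ext z
    simp [Oz]
  rw [this]
  apply isOpen_iInter_of_finite
  intro i
  exact (isOpen_compl (L i)).preimage (by fun_prop)

variable {L q}

lemma Oz_notMem {z : Fin n → ℂ} (hz : z ∈ Oz L q) (i : Fin n) : z i + q i ∉ (L i).lattice :=
  two_mul_notMem_of (L i) (hz i)

lemma analytic_fz {z : Fin n → ℂ} (hz : z ∈ Oz L q) : AnalyticAt ℂ (fz L s ρ q) z := by
  unfold fz
  apply Finset.analyticAt_fun_sum
  intro i _
  apply AnalyticAt.fun_add
  · apply analyticAt_const.fun_mul
    exact (analyticAt_comp_coord (q i) i (analyticAt_zetaz (L i) (Oz_notMem hz i))).fun_sub analyticAt_const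
  · exact analyticAt_const.fun_mul (analyticAt_coord i z)

lemma analytic_valz (d : ℤ) (p : Option (Fin n × Bool)) :
    AnalyticOnNhd ℂ (valz L s ρ q d p) (Oz L q) := by
  intro z hz
  rcases p with _ | ⟨j, b⟩
  · have : valz L s ρ q d none = fun z => (d : ℂ) * fz L s ρ q z := rfl
    rw [this]
    exact analyticAt_const.fun_mul (analytic_fz s ρ hz)
  · cases b
    · have : valz L s ρ q d (some (j, false)) = fun z => (d : ℂ) ^ 2 * ℘[L j] (z j + q j) := by
        funext z
        simp [valz]
      rw [this]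
      exact analyticAt_const.fun_mul (analyticAt_comp_coord (q j) j (analyticAt_wpz (L j) (Oz_notMem hz j)))
    · have : valz L s ρ q d (some (j, true)) = fun z => (d : ℂ) ^ 3 * ℘'[L j] (z j + q j) := by
        funext z
        simp [valz]
      rw [this]
      exact analyticAt_const.fun_mul (analyticAt_comp_coord (q j) j (analyticAt_wpz' (L j) (Oz_notMem hz j)))

lemma hasFDerivAt_fz {z : Fin n → ℂ} (hz : z ∈ Oz L q) :
    HasFDerivAt (fz L s ρ q) (∑ i, (s i * (-℘[L i] (z i + q i)) + ρ i) •
      (ContinuousLinearMap.proj i : (Fin n → ℂ) →L[ℂ] ℂ)) z := by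
  unfold fz
  apply HasFDerivAt.fun_sum
  intro i _
  have h1 : HasDerivAt (fun u : ℂ => s i * (zeta (L i) (u + q i) - zeta (L i) (q i)) + ρ i * u)
      (s i * (-℘[L i] (z i + q i)) + ρ i) (z i) := by
    have h2 : HasDerivAt (fun u : ℂ => zeta (L i) (u + q i)) (-℘[L i] (z i + q i)) (z i) :=
      (hasDerivAt_zeta (L i) (Oz_notMem hz i)).comp_add_const (z i) (q i)
    have h3 : HasDerivAt (fun u : ℂ => ρ i * u) (ρ i) (z i) := by
      simpa using (hasDerivAt_id (z i)).const_mul (ρ i)
    exact ((h2.sub_const _).const_mul (s i)).add h3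
  have h2 := h1.comp_hasFDerivAt z
    ((ContinuousLinearMap.proj i : (Fin n → ℂ) →L[ℂ] ℂ).hasFDerivAt (x := z))
  exact h2

lemma D_fz {z : Fin n → ℂ} (hz : z ∈ Oz L q) (a c : ℂ) (j : Fin n) :
    D (c • (Pi.single j 1 : Fin n → ℂ)) (fun z => a * fz L s ρ q z) z =
      a * (((s j * (-℘[L j] (z j + q j)) + ρ j)) * c) := by
  have h1 := (hasFDerivAt_fz s ρ hz).const_mul a
  simp only [D]
  rw [h1.fderiv]
  simp only [_root_.smul_apply, _root_.sum_apply,
    ContinuousLinearMap.proj_apply, Pi.smul_apply, smul_eq_mul]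
  congr 1
  rw [Finset.sum_eq_single j]
  · simp
  · intro i _ hi
    simp [hi]
  · intro h
    exact absurd (Finset.mem_univ _) h

/-- the derivations -/
def δz {R : Type*} [CommRing R] (dd : R) (gd bs br : Fin n → R) (j : Fin n)
    (p : Option (Fin n × Bool)) : MvPolynomial (Option (Fin n × Bool)) R :=
  p.elim (C (br j) - C (bs j) * MvPolynomial.X (some (j, false)))
    (fun ib => if ib.1 = j then
      (if ib.2 then C dd * (6 * MvPolynomial.X (some (j, false)) ^ 2 - C (gd j))
        else C dd * MvPolynomial.X (some (j, true))) else 0)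

lemma totalDegree_δz {R : Type*} [CommRing R] [Nontrivial R] (dd : R) (gd bs br : Fin n → R) (j : Fin n)
    (p : Option (Fin n × Bool)) : (δz dd gd bs br j p).totalDegree ≤ 2 := by
  rcases p with _ | ⟨i, b⟩
  · unfold δz
    simp only [Option.elim]
    refine (totalDegree_sub _ _).trans ?_
    rw [totalDegree_C]
    apply max_le (Nat.zero_le _)
    refine (totalDegree_mul _ _).trans ?_
    rw [totalDegree_C, totalDegree_X]
    omega
  · unfold δz
    simp only [Option.elim]
    split_ifs
    · refine (totalDegree_mul _ _).trans ?_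
      rw [totalDegree_C, zero_add]
      refine (totalDegree_sub _ _).trans ?_
      rw [totalDegree_C]
      apply max_le _ (Nat.zero_le _)
      refine (totalDegree_mul _ _).trans ?_
      rw [show (6 : MvPolynomial (Option (Fin n × Bool)) R) = C 6 from rfl, totalDegree_C, zero_add]
      refine (totalDegree_pow _ _).trans ?_
      rw [totalDegree_X]
    · refine (totalDegree_mul _ _).trans ?_
      rw [totalDegree_C, totalDegree_X]
      omega
    · rw [totalDegree_zero]
      omega

lemma D_valz {R : Type*} [CommRing R] (emb : R →+* ℂ) {dd : R} {gd bs br : Fin n → R} {d : ℤ}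
    (hdd : emb dd = d) (hgd : ∀ j, emb (gd j) = d ^ 4 * ((L j).g₂ / 2)) (hbs : ∀ j, emb (bs j) = d * s j)
    (hbr : ∀ j, emb (br j) = d ^ 3 * ρ j) (j : Fin n) (p : Option (Fin n × Bool))
    (z : Fin n → ℂ) (hz : z ∈ Oz L q) :
    D ((d : ℂ) ^ 2 • (Pi.single j 1 : Fin n → ℂ)) (valz L s ρ q d p) z =
      ev emb (valz L s ρ q d) (δz dd gd bs br j p) z := by
  have h6 : ∀ w : Option (Fin n × Bool) → ℂ,
      eval₂ emb w (6 : MvPolynomial (Option (Fin n × Bool)) R) = 6 := by
    intro w
    rw [show (6 : MvPolynomial (Option (Fin n × Bool)) R) = C 6 from rfl, eval₂_C]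
    exact map_ofNat emb 6
  rcases p with _ | ⟨i, b⟩
  · have h1 : valz L s ρ q d none = fun z => (d : ℂ) * fz L s ρ q z := rfl
    rw [h1, D_fz s ρ hz]
    simp only [ev, δz, Option.elim, eval₂_sub, eval₂_mul, eval₂_C, eval₂_X, hbs, hbr, valz,
      Bool.false_eq_true, if_false]
    ring
  · cases b
    · have h1 : valz L s ρ q d (some (i, false)) = fun z => (d : ℂ) ^ 2 * ℘[L i] (z i + q i) := by
        funext z
        simp [valz]
      rw [h1, D_coord i z _ _ (hasDerivAt_weierstrassP (L i) (Oz_notMem hz i))]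
      by_cases hij : i = j
      · subst hij
        simp only [ev, δz, Option.elim, if_true, Bool.false_eq_true, if_false, eval₂_mul, eval₂_C,
          eval₂_X, hdd, valz, Pi.smul_apply, Pi.single_eq_same, smul_eq_mul]
        ring
      · simp only [ev, δz, Option.elim, if_neg hij, eval₂_zero, Pi.smul_apply, smul_eq_mul,
          Pi.single_eq_of_ne hij, mul_zero]
    · have h1 : valz L s ρ q d (some (i, true)) = fun z => (d : ℂ) ^ 3 * ℘'[L i] (z i + q i) := by
        funext z
        simp [valz]
      rw [h1, D_coord i z _ _ (hasDerivAt_wp' (L i) (hz i))]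
      by_cases hij : i = j
      · subst hij
        simp only [ev, δz, Option.elim, if_true, Bool.false_eq_true, if_false, eval₂_mul, eval₂_C,
          eval₂_X, eval₂_sub, eval₂_pow, hdd, hgd, h6, valz, Pi.smul_apply, Pi.single_eq_same,
          smul_eq_mul]
        ring
      · simp only [ev, δz, Option.elim, if_neg hij, eval₂_zero, Pi.smul_apply, smul_eq_mul,
          Pi.single_eq_of_ne hij, mul_zero]

variable (L q)

/-- the denominators -/
def Thz (o : Option (Fin n)) (z : Fin n → ℂ) : ℂ :=
  o.elim (∏ j, sigma (L j) (z j + q j)) (fun j => sigma (L j) (z j + q j) * sigma (L j) (z j + q j))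

open Classical in
/-- the numerators -/
def Az (d : ℤ) (o : Option (Fin n)) (z : Fin n → ℂ) : ℂ :=
  o.elim ((d : ℂ) * ∑ i, (s i * (deriv (sigma (L i)) (z i + q i) *
      (∏ j ∈ Finset.univ.erase i, sigma (L j) (z j + q j)) + (-zeta (L i) (q i)) * ∏ j, sigma (L j) (z j + q j)) +
      ρ i * (z i * ∏ j, sigma (L j) (z j + q j))))
    (fun j => (d : ℂ) ^ 2 * Afun (L j) ((L j).ω₁ / 2) (z j + q j))

variable {L q}

lemma hThz (d : ℤ) (o : Option (Fin n)) (z : Fin n → ℂ) (hz : z ∈ Oz L q) :
    Thz L q o z * valz L s ρ q d (bz o) z = Az L s ρ q d o z := by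
  classical
  rcases o with _ | j
  · simp only [Thz, bz, Option.map_none, Option.elim, valz, Az, fz, Finset.mul_sum]
    apply Finset.sum_congr rfl
    intro i _
    rw [deriv_sigma (L i) (Oz_notMem hz i), ← Finset.mul_prod_erase Finset.univ (fun j => sigma (L j) (z j + q j)) (Finset.mem_univ i)]
    ring
  · simp only [Thz, bz, Option.map_some, Option.elim, valz, Az, Bool.false_eq_true, if_false]
    rw [wp_eq_Afun (L j) (Oz_notMem hz j) (L j).ω₁_div_two_notMem_lattice]
    have h1 := sigma_ne_zero (L j) (Oz_notMem hz j)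
    field_simp

lemma Thz_ne_zero (o : Option (Fin n)) {z : Fin n → ℂ} (hz : z ∈ Oz L q) : Thz L q o z ≠ 0 := by
  rcases o with _ | j
  · simp only [Thz, Option.elim]
    rw [Finset.prod_ne_zero_iff]
    intro j _
    exact sigma_ne_zero (L j) (Oz_notMem hz j)
  · simp only [Thz, Option.elim]
    exact mul_ne_zero (sigma_ne_zero (L j) (Oz_notMem hz j)) (sigma_ne_zero (L j) (Oz_notMem hz j))

lemma gr_Thz (o : Option (Fin n)) : GrE (Thz L q o) := by
  rcases o with _ | j
  · have : Thz L q (none : Option (Fin n)) = fun z => ∏ j, sigma (L j) (z j + q j) := rfl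
    rw [this]
    exact GrE.prod _ _ fun j _ => GrE.comp (Gr.sigma (L j)) j (q j)
  · have : Thz L q (some j) = fun z => sigma (L j) (z j + q j) * sigma (L j) (z j + q j) := rfl
    rw [this]
    exact (GrE.comp (Gr.sigma (L j)) j (q j)).mul (GrE.comp (Gr.sigma (L j)) j (q j))

lemma gr_Az (d : ℤ) (o : Option (Fin n)) : GrE (Az L s ρ q d o) := by
  classical
  have hprod : GrE (fun z : Fin n → ℂ => ∏ j, sigma (L j) (z j + q j)) :=
    GrE.prod _ _ fun j _ => GrE.comp (Gr.sigma (L j)) j (q j)
  rcases o with _ | j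
  · have : Az L s ρ q d none = fun z => ((d : ℂ) * ∑ i, (s i * (deriv (sigma (L i)) (z i + q i) *
      (∏ j ∈ Finset.univ.erase i, sigma (L j) (z j + q j)) + (-zeta (L i) (q i)) * ∏ j, sigma (L j) (z j + q j)) +
      ρ i * (z i * ∏ j, sigma (L j) (z j + q j)))) := by
      funext z
      simp only [Az, Option.elim]
    rw [this]
    apply (GrE.const _).mul
    apply GrE.sum
    intro i _
    apply GrE.add
    · apply (GrE.const _).mul
      apply GrE.add
      · exact (GrE.comp (Gr_deriv (Gr.sigma (L i)) (differentiable_sigma (L i))) i (q i)).mul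
          (GrE.prod _ _ fun j _ => GrE.comp (Gr.sigma (L j)) j (q j))
      · exact (GrE.const _).mul hprod
    · exact (GrE.const _).mul ((GrE.coord i).mul hprod)
  · have : Az L s ρ q d (some j) = fun z => (d : ℂ) ^ 2 * Afun (L j) ((L j).ω₁ / 2) (z j + q j) := rfl
    rw [this]
    exact (GrE.const _).mul (GrE.comp (Gr_Afun (L j) _) j (q j))

lemma analytic_Thz (o : Option (Fin n)) : AnalyticOnNhd ℂ (Thz L q o) Set.univ := by
  intro z _
  have hs : ∀ j : Fin n, AnalyticAt ℂ (fun z : Fin n → ℂ => sigma (L j) (z j + q j)) z := fun j =>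
    analyticAt_comp_coord (q j) j ((differentiable_sigma (L j)).analyticAt _)
  rcases o with _ | j
  · have : Thz L q (none : Option (Fin n)) = fun z => ∏ j, sigma (L j) (z j + q j) := rfl
    rw [this]
    exact Finset.analyticAt_fun_prod _ fun j _ => hs j
  · have : Thz L q (some j) = fun z => sigma (L j) (z j + q j) * sigma (L j) (z j + q j) := rfl
    rw [this]
    exact (hs j).fun_mul (hs j)

lemma analytic_Az (d : ℤ) (o : Option (Fin n)) : AnalyticOnNhd ℂ (Az L s ρ q d o) Set.univ := by
  classical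
  intro z _
  have hs : ∀ j : Fin n, AnalyticAt ℂ (fun z : Fin n → ℂ => sigma (L j) (z j + q j)) z := fun j =>
    analyticAt_comp_coord (q j) j ((differentiable_sigma (L j)).analyticAt _)
  have hs' : ∀ j : Fin n, AnalyticAt ℂ (fun z : Fin n → ℂ => deriv (sigma (L j)) (z j + q j)) z := fun j =>
    analyticAt_comp_coord (q j) j ((differentiable_sigma (L j)).analyticAt _).deriv
  rcases o with _ | j
  · have : Az L s ρ q d none = fun z => ((d : ℂ) * ∑ i, (s i * (deriv (sigma (L i)) (z i + q i) *
      (∏ j ∈ Finset.univ.erase i, sigma (L j) (z j + q j)) + (-zeta (L i) (q i)) * ∏ j, sigma (L j) (z j + q j)) +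
      ρ i * (z i * ∏ j, sigma (L j) (z j + q j)))) := by
      funext z
      simp only [Az, Option.elim]
    rw [this]
    apply analyticAt_const.fun_mul
    apply Finset.analyticAt_fun_sum
    intro i _
    apply AnalyticAt.fun_add
    · apply analyticAt_const.fun_mul
      apply AnalyticAt.fun_add
      · exact (hs' i).fun_mul (Finset.analyticAt_fun_prod _ fun j _ => hs j)
      · exact analyticAt_const.fun_mul (Finset.analyticAt_fun_prod _ fun j _ => hs j)
    · exact analyticAt_const.fun_mul ((analyticAt_coord i z).fun_mul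
        (Finset.analyticAt_fun_prod _ fun j _ => hs j))
  · have : Az L s ρ q d (some j) = fun z => (d : ℂ) ^ 2 * Afun (L j) ((L j).ω₁ / 2) (z j + q j) := rfl
    rw [this]
    exact analyticAt_const.fun_mul (analyticAt_comp_coord (q j) j ((differentiable_Afun (L j) _).analyticAt _))

lemma fz_shift {z : Fin n → ℂ} (hz : z ∈ Oz L q) (j0 : Fin n) {w : ℂ} (hw : w ∈ (L j0).lattice) :
    fz L s ρ q (z + Pi.single j0 w) = fz L s ρ q z + (s j0 * eta (L j0) w + ρ j0 * w) := by
  classical
  have h1 : (s j0 * eta (L j0) w + ρ j0 * w) =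
      ∑ i, (if i = j0 then (s j0 * eta (L j0) w + ρ j0 * w) else 0) := by
    rw [Finset.sum_ite_eq' Finset.univ j0]
    simp
  rw [h1, fz, fz, ← Finset.sum_add_distrib]
  apply Finset.sum_congr rfl
  intro i _
  by_cases hi : i = j0
  · subst hi
    simp only [Pi.add_apply, Pi.single_eq_same, if_true]
    rw [show z i + w + q i = z i + q i + w by ring, zeta_add_coe (L i) (Oz_notMem hz i) hw]
    ring
  · simp only [Pi.add_apply, Pi.single_eq_of_ne hi, add_zero, if_neg hi]

lemma add_single_mem_Oz {z : Fin n → ℂ} (hz : z ∈ Oz L q) (j0 : Fin n) {w : ℂ} (hw : w ∈ (L j0).lattice) :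
    z + Pi.single j0 w ∈ Oz L q := by
  intro i
  by_cases hi : i = j0
  · subst hi
    simp only [Pi.add_apply, Pi.single_eq_same]
    intro h
    apply hz i
    have h1 : 2 * (z i + w + q i) - (w + w) = 2 * (z i + q i) := by ring
    rw [← h1]
    exact sub_mem h (add_mem hw hw)
  · simp only [Pi.add_apply, Pi.single_eq_of_ne hi, add_zero]
    exact hz i

lemma indep_z {d : ℤ} (hd : d ≠ 0) (j0 : Fin n) (hw : ∃ w ∈ (L j0).lattice, s j0 * eta (L j0) w + ρ j0 * w ≠ 0)
    (P : MvPolynomial (Option (Fin n)) ℂ) (hP : P ≠ 0) :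
    ∃ z ∈ Oz L q, (∀ i, Thz L q i z ≠ 0) ∧
      MvPolynomial.eval (fun i => valz L s ρ q d (bz i) z) P ≠ 0 := by
  classical
  by_contra hcon
  push Not at hcon
  apply hP
  obtain ⟨w, hwL, hw0⟩ := hw
  have hdC : (d : ℂ) ≠ 0 := by exact_mod_cast hd
  have hd2 : (d : ℂ) ^ 2 ≠ 0 := pow_ne_zero _ hdC
  set S : Option (Fin n) → Set ℂ := fun o => o.elim Set.univ (fun j => {x | x / (d : ℂ) ^ 2 ∉ halfSet (L j)})
    with hS
  apply MvPolynomial.funext_set S
  · intro o
    rcases o with _ | j
    · exact Set.infinite_univ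
    · have h1 : S (some j) = ((fun x : ℂ => x / (d : ℂ) ^ 2) ⁻¹' halfSet (L j))ᶜ := rfl
      rw [h1]
      apply Set.Finite.infinite_compl
      apply (halfSet_finite (L j)).preimage
      intro x _ y _ hxy
      simp only at hxy
      field_simp at hxy
      exact hxy
  intro x hx
  rw [map_zero]
  choose u hu hux using fun j : Fin n => exists_wp_eq (L j) (x (some j) / (d : ℂ) ^ 2)
  have hu2 : ∀ j, 2 * u j ∉ (L j).lattice := by
    intro j h
    have h1 := half_mem_halfSet h
    rw [show 2 * u j / 2 = u j by ring, hux] at h1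
    exact (hx (some j) (Set.mem_univ _)) h1
  -- the polynomial in one variable
  set p : Polynomial ℂ := MvPolynomial.aeval (fun i : Option (Fin n) =>
    (match i with
      | none => Polynomial.X
      | some j => Polynomial.C (x (some j)) : Polynomial ℂ)) P with hp
  have heval : ∀ t : ℂ, p.eval t = MvPolynomial.eval (fun i : Option (Fin n) =>
      (match i with
        | none => t
        | some j => x (some j) : ℂ)) P := by
    intro t
    rw [hp, MvPolynomial.aeval_def, MvPolynomial.polynomial_eval_eval₂]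
    rw [← MvPolynomial.eval₂_id]
    congr 1
    · ext a
      simp
    · funext i
      cases i <;> simp
  set z : Fin n → ℂ := fun j => u j - q j with hz
  have hzO : z ∈ Oz L q := by
    intro j
    rw [hz]
    simp only [sub_add_cancel]
    exact hu2 j
  set c : ℂ := (s j0 * eta (L j0) w + ρ j0 * w) with hc
  have hc0 : c ≠ 0 := hw0
  have hroot : ∀ m : ℕ, p.eval ((d : ℂ) * (fz L s ρ q z + m * c)) = 0 := by
    intro m
    have hmw : (m : ℂ) * w ∈ (L j0).lattice := by
      simpa using intCast_mul_mem (L j0) hwL (m : ℤ)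
    set z' : Fin n → ℂ := z + Pi.single j0 ((m : ℂ) * w) with hz'
    have hz'O : z' ∈ Oz L q := add_single_mem_Oz hzO j0 hmw
    have h1 := hcon z' hz'O (fun i => Thz_ne_zero i hz'O)
    rw [heval, ← h1]
    congr 2
    funext i
    rcases i with _ | j
    · simp only [bz, Option.map_none, valz, Option.elim]
      rw [hz', fz_shift s ρ hzO j0 hmw, eta_nsmul (L j0) hwL]
      rw [hc]
      ring
    · simp only [bz, Option.map_some, valz, Option.elim, Bool.false_eq_true, if_false]
      have h2 : ∃ w' ∈ (L j).lattice, z' j + q j = u j + w' := by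
        refine ⟨(Pi.single j0 ((m : ℂ) * w) : Fin n → ℂ) j, ?_, ?_⟩
        · by_cases hj : j = j0
          · subst hj
            simpa using hmw
          · simp [hj]
        · rw [hz', hz]
          simp only [Pi.add_apply]
          ring
      obtain ⟨w', hw', e⟩ := h2
      rw [e, wp_add_lattice (L j) hw', hux]
      field_simp
  have hp0 : p = 0 := by
    apply Polynomial.eq_zero_of_infinite_isRoot
    have hinj : Function.Injective (fun m : ℕ => (d : ℂ) * (fz L s ρ q z + m * c)) := by
      intro m m' hmm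
      simp only at hmm
      have h1 := mul_left_cancel₀ hdC hmm
      have h2 := add_left_cancel h1
      have h3 := mul_right_cancel₀ hc0 h2
      exact_mod_cast h3
    refine (Set.infinite_range_of_injective hinj).mono ?_
    rintro _ ⟨m, rfl⟩
    exact hroot m
  have h2 := heval (x none)
  rw [hp0, Polynomial.eval_zero] at h2
  rw [h2]
  congr 2
  funext i
  cases i <;> rfl

end Pool.Agent.X306.EM
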