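import Pool.Agent.TH119.MX.Mat

set_option autoImplicit false
set_option linter.unusedVariables false
set_option linter.unusedSectionVars false
set_option linter.unusedSimpArgs false

/-!
# The lemma of Goursat for two copies of `sl₂`, with rationality
-/

noncomputable section

namespace Pool.Agent.X306.EM

open Finset Matrix Pool.Agent.TH119.DR Pool.Agent.TH119.MX

theorem tr2 {x : M2} (hx : x.trace = 0) : x 1 1 = -x 0 0 := by
  rw [Matrix.trace_fin_two] at hx
  linear_combination hx

theorem eta2 {x : M2} (hx : x.trace = 0) : x = !![x 0 0, x 0 1; x 1 0, -x 0 0] := by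
  ext i j
  fin_cases i <;> fin_cases j <;> simp [tr2 hx]

/-- nonzero ideals of `sl₂` -/
theorem ideal_top {I : Submodule ℂ M2} (htr : ∀ x ∈ I, x.trace = 0)
    (hbr : ∀ x ∈ I, ∀ y : M2, y.trace = 0 → x * y - y * x ∈ I) {x : M2} (hx : x ∈ I) (hx0 : x ≠ 0) :
    ∀ y : M2, y.trace = 0 → y ∈ I := by
  have he : se ∈ I := by
    have h1 := hbr x hx se tr_se
    have h2 := hbr _ h1 se tr_se
    have e1 : (x * se - se * x) * se - se * (x * se - se * x) = (-2 * x 1 0) • se := by
      rw [eta2 (htr x hx)]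
      ext i j
      fin_cases i <;> fin_cases j <;> simp [se, Matrix.mul_apply, Fin.sum_univ_two]
      ring
    rw [e1] at h2
    by_cases hc : x 1 0 = 0
    · have e2 : x * se - se * x = (2 * x 0 0) • se := by
        rw [eta2 (htr x hx)]
        ext i j
        fin_cases i <;> fin_cases j <;> simp [se, Matrix.mul_apply, Fin.sum_univ_two, hc]
        ring
      rw [e2] at h1
      by_cases ha : x 0 0 = 0
      · have e3 : x = x 0 1 • se := by
          conv_lhs => rw [eta2 (htr x hx)]
          ext i j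
          fin_cases i <;> fin_cases j <;> simp [se, hc, ha]
        have hb : x 0 1 ≠ 0 := by
          intro hb
          apply hx0
          rw [e3, hb, zero_smul]
        rw [e3] at hx
        have := I.smul_mem (x 0 1)⁻¹ hx
        rwa [smul_smul, inv_mul_cancel₀ hb, one_smul] at this
      · have := I.smul_mem (2 * x 0 0)⁻¹ h1
        rwa [smul_smul, inv_mul_cancel₀ (mul_ne_zero two_ne_zero ha), one_smul] at this
    · have := I.smul_mem (-2 * x 1 0)⁻¹ h2
      rwa [smul_smul, inv_mul_cancel₀ (mul_ne_zero (by norm_num) hc), one_smul] at this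
  have hh : sh ∈ I := by
    have h1 := hbr se he sf tr_sf
    have e1 : se * sf - sf * se = sh := by
      ext i j
      fin_cases i <;> fin_cases j <;> simp [se, sf, sh, Matrix.mul_apply, Fin.sum_univ_two]
    rwa [e1] at h1
  have hf : sf ∈ I := by
    have h1 := hbr sh hh sf tr_sf
    have e1 : sh * sf - sf * sh = (-2 : ℂ) • sf := by
      ext i j
      fin_cases i <;> fin_cases j <;> simp [se, sf, sh, Matrix.mul_apply, Fin.sum_univ_two]
      ring
    rw [e1] at h1
    have := I.smul_mem (-2 : ℂ)⁻¹ h1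
    rwa [smul_smul, inv_mul_cancel₀ (by norm_num), one_smul] at this
  intro y hy
  have e : y = y 0 0 • sh + y 0 1 • se + y 1 0 • sf := by
    conv_lhs => rw [eta2 hy]
    ext i j
    fin_cases i <;> fin_cases j <;> simp [se, sf, sh]
  rw [e]
  exact I.add_mem (I.add_mem (I.smul_mem _ hh) (I.smul_mem _ he)) (I.smul_mem _ hf)

/-- the anticommutator of traceless matrices is a scalar -/
theorem anti {x y : M2} (hx : x.trace = 0) (hy : y.trace = 0) : x * y + y * x = (x * y).trace • (1 : M2) := by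
  rw [eta2 hx, eta2 hy]
  ext i j
  fin_cases i <;> fin_cases j <;> simp [Matrix.mul_apply, Fin.sum_univ_two, Matrix.trace_fin_two] <;> ring

/-- triples with the relations of `sl₂` are conjugate to the standard triple -/
theorem triple {F : Subfield ℂ} {h e f : M2} (hh : h.trace = 0) (he : e.trace = 0) (hf : f.trace = 0)
    (hhF : ∀ i j, h i j ∈ F) (heF : ∀ i j, e i j ∈ F) (hfF : ∀ i j, f i j ∈ F) (he0 : e ≠ 0)
    (r1 : h * e - e * h = (2 : ℂ) • e) (r2 : e * f - f * e = h) (r3 : h * f - f * h = (-2 : ℂ) • f) :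
    ∃ A : M2, (∀ i j, A i j ∈ F) ∧ A 0 0 * A 1 1 - A 0 1 * A 1 0 ≠ 0 ∧ A * se = e * A ∧ A * sf = f * A ∧
      A * sh = h * A := by
  -- `e * e = 0`
  have hee : e * e = 0 := by
    have h1 := anti he he
    have h2 : (e * e).trace = 0 := by
      have h3 : ((h * e - e * h) * e).trace = 0 := by
        rw [Matrix.sub_mul, Matrix.trace_sub, Matrix.mul_assoc e h e, Matrix.trace_mul_comm e (h * e), sub_self]
      rw [r1, Matrix.smul_mul, Matrix.trace_smul, smul_eq_mul] at h3
      exact (mul_eq_zero.1 h3).resolve_left two_ne_zero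
    rw [h2, zero_smul, ← two_smul ℂ] at h1
    exact (smul_eq_zero.1 h1).resolve_left two_ne_zero
  have hff : f * f = 0 := by
    have h1 := anti hf hf
    have h2 : (f * f).trace = 0 := by
      have h3 : ((h * f - f * h) * f).trace = 0 := by
        rw [Matrix.sub_mul, Matrix.trace_sub, Matrix.mul_assoc f h f, Matrix.trace_mul_comm f (h * f), sub_self]
      rw [r3, Matrix.smul_mul, Matrix.trace_smul, smul_eq_mul] at h3
      exact (mul_eq_zero.1 h3).resolve_left (by norm_num)
    rw [h2, zero_smul, ← two_smul ℂ] at h1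
    exact (smul_eq_zero.1 h1).resolve_left two_ne_zero
  -- `h * e = e`
  have hhe : h * e = e := by
    have h1 := anti hh he
    have h2 : (h * e).trace = 0 := by
      have h3 : (h * (h * e - e * h)).trace = 0 := by
        rw [Matrix.mul_sub, Matrix.trace_sub, ← Matrix.mul_assoc h e h, Matrix.trace_mul_comm (h * e) h, sub_self]
      rw [r1, Matrix.mul_smul, Matrix.trace_smul, smul_eq_mul] at h3
      exact (mul_eq_zero.1 h3).resolve_left two_ne_zero
    rw [h2, zero_smul] at h1
    have h4 : (2 : ℂ) • (h * e) = (2 : ℂ) • e := by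
      rw [← r1, two_smul]
      have : e * h = -(h * e) := by rw [eq_neg_iff_add_eq_zero, add_comm]; exact h1
      rw [this]
      abel
    exact smul_right_injective _ (two_ne_zero) h4
  obtain ⟨b, hbF, hb⟩ : ∃ b : Fin 2 → ℂ, (∀ i, b i ∈ F) ∧ e *ᵥ b ≠ 0 := by
    by_contra hcon
    push Not at hcon
    apply he0
    ext i j
    have h1 := hcon (Pi.single j 1) (fun k => by
      rw [Pi.single_apply]
      split_ifs
      · exact F.one_mem
      · exact F.zero_mem)
    have h2 := congrFun h1 i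
    rw [Matrix.mulVec_single_one] at h2
    exact h2
  have hmv : ∀ (m : M2) (v : Fin 2 → ℂ), (∀ i j, m i j ∈ F) → (∀ i, v i ∈ F) → ∀ i, (m *ᵥ v) i ∈ F := by
    intro m v hm hv i
    have : (m *ᵥ v) i = ∑ j, m i j * v j := rfl
    rw [this]
    exact F.sum_mem fun j _ => F.mul_mem (hm i j) (hv j)
  set a₁ : Fin 2 → ℂ := e *ᵥ b with ha₁
  set a₂ : Fin 2 → ℂ := f *ᵥ a₁ with ha₂
  have k1 : e *ᵥ a₁ = 0 := by rw [ha₁, Matrix.mulVec_mulVec, hee, Matrix.zero_mulVec]
  have k2 : h *ᵥ a₁ = a₁ := by rw [ha₁, Matrix.mulVec_mulVec, hhe]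
  have k3 : f *ᵥ a₂ = 0 := by rw [ha₂, Matrix.mulVec_mulVec, hff, Matrix.zero_mulVec]
  have k4 : e *ᵥ a₂ = a₁ := by
    have h1 : e * f = h + f * e := by rw [← r2]; abel
    rw [ha₂, Matrix.mulVec_mulVec, h1, Matrix.add_mulVec, k2, ← Matrix.mulVec_mulVec, k1, Matrix.mulVec_zero,
      add_zero]
  have k5 : h *ᵥ a₂ = -a₂ := by
    have h1 : h * f = f * h + (-2 : ℂ) • f := by rw [← r3]; abel
    rw [ha₂, Matrix.mulVec_mulVec, h1, Matrix.add_mulVec, ← Matrix.mulVec_mulVec, k2, Matrix.smul_mulVec, ← ha₂]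
    ext i
    simp
    ring
  have m1 : ∀ i, a₁ i ∈ F := hmv e b heF hbF
  have m2 : ∀ i, a₂ i ∈ F := hmv f a₁ hfF m1
  have g1 : ∀ i, e i 0 * a₁ 0 + e i 1 * a₁ 1 = 0 := fun i => by
    have := congrFun k1 i
    simpa [Matrix.mulVec, dotProduct, Fin.sum_univ_two] using this
  have g2 : ∀ i, h i 0 * a₁ 0 + h i 1 * a₁ 1 = a₁ i := fun i => by
    have := congrFun k2 i
    simpa [Matrix.mulVec, dotProduct, Fin.sum_univ_two] using this
  have g3 : ∀ i, f i 0 * a₂ 0 + f i 1 * a₂ 1 = 0 := fun i => by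
    have := congrFun k3 i
    simpa [Matrix.mulVec, dotProduct, Fin.sum_univ_two] using this
  have g4 : ∀ i, e i 0 * a₂ 0 + e i 1 * a₂ 1 = a₁ i := fun i => by
    have := congrFun k4 i
    simpa [Matrix.mulVec, dotProduct, Fin.sum_univ_two] using this
  have g5 : ∀ i, h i 0 * a₂ 0 + h i 1 * a₂ 1 = -a₂ i := fun i => by
    have := congrFun k5 i
    simpa [Matrix.mulVec, dotProduct, Fin.sum_univ_two] using this
  have g6 : ∀ i, f i 0 * a₁ 0 + f i 1 * a₁ 1 = a₂ i := fun i => by
    have := congrFun ha₂ i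
    simpa [Matrix.mulVec, dotProduct, Fin.sum_univ_two] using this.symm
  refine ⟨!![a₁ 0, a₂ 0; a₁ 1, a₂ 1], ?_, ?_, ?_, ?_, ?_⟩
  · intro i j
    fin_cases i <;> fin_cases j
    · exact m1 0
    · exact m2 0
    · exact m1 1
    · exact m2 1
  · simp only [Matrix.of_apply, Matrix.cons_val', Matrix.cons_val_zero, Matrix.cons_val_one,
      Matrix.cons_val_fin_one]
    intro hdet
    apply hb
    have h0 : ∀ i, a₁ 1 * a₁ i = 0 := by
      intro i
      have q1 : a₁ 1 * (e i 0 * a₂ 0 + e i 1 * a₂ 1) = a₁ 1 * a₁ i := by rw [g4]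
      have q2 := g1 i
      linear_combination -q1 + a₂ 1 * q2 - e i 0 * hdet
    have h1 : ∀ i, a₁ 0 * a₁ i = 0 := by
      intro i
      have q1 : a₁ 0 * (e i 0 * a₂ 0 + e i 1 * a₂ 1) = a₁ 0 * a₁ i := by rw [g4]
      have q2 := g1 i
      linear_combination -q1 + a₂ 0 * q2 + e i 1 * hdet
    ext i
    fin_cases i
    · exact mul_self_eq_zero.1 (h1 0)
    · exact mul_self_eq_zero.1 (h0 1)
  · ext i j
    fin_cases i <;> fin_cases j <;>
      simp [se, Matrix.mul_apply, Fin.sum_univ_two, g1, g4]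
  · ext i j
    fin_cases i <;> fin_cases j <;>
      simp [sf, Matrix.mul_apply, Fin.sum_univ_two, g3, g6]
  · ext i j
    fin_cases i <;> fin_cases j <;>
      simp [sh, Matrix.mul_apply, Fin.sum_univ_two, g2, g5]

/-- **Goursat's lemma** -/
theorem gours {F : Subfield ℂ} (T : Submodule ℂ (M2 × M2)) (htr : ∀ p ∈ T, p.1.trace = 0 ∧ p.2.trace = 0)
    (hbr : ∀ p ∈ T, ∀ q ∈ T, (p.1 * q.1 - q.1 * p.1, p.2 * q.2 - q.2 * p.2) ∈ T)
    (hF : ∀ f : ℂ →ₗ[F] ℂ, ∀ p ∈ T, (p.1.map f, p.2.map f) ∈ T)
    (h1 : ∀ x : M2, x.trace = 0 → ∃ y, (x, y) ∈ T) (h2 : ∀ y : M2, y.trace = 0 → ∃ x, (x, y) ∈ T) :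
    (∀ x : M2, x.trace = 0 → (x, (0 : M2)) ∈ T) ∨
      ∃ A : M2, (∀ i j, A i j ∈ F) ∧ A 0 0 * A 1 1 - A 0 1 * A 1 0 ≠ 0 ∧ ∀ p ∈ T, A * p.1 = p.2 * A := by
  by_cases hI : ∃ x, (x, (0 : M2)) ∈ T ∧ x ≠ 0
  · left
    obtain ⟨x, hx, hx0⟩ := hI
    let I : Submodule ℂ M2 :=
      { carrier := {x | (x, (0 : M2)) ∈ T}
        zero_mem' := T.zero_mem
        add_mem' := by
          intro a b ha hb
          have := T.add_mem ha hb
          simpa using this
        smul_mem' := by
          intro c a ha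
          have := T.smul_mem c ha
          simpa using this }
    have h3 := ideal_top (I := I) (fun x hx => (htr _ hx).1) (fun x hx y hy => by
      obtain ⟨z, hz⟩ := h1 y hy
      have := hbr _ hx _ hz
      have h5 : (x * y - y * x, (0 : M2)) ∈ T := by simpa using this
      exact h5) (x := x) hx hx0
    exact fun y hy => h3 y hy
  · right
    push Not at hI
    -- the other kernel
    have hJ : ∀ y, ((0 : M2), y) ∈ T → y = 0 := by
      by_contra hcon
      push Not at hcon
      obtain ⟨y, hy, hy0⟩ := hcon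
      let I : Submodule ℂ M2 :=
        { carrier := {y | ((0 : M2), y) ∈ T}
          zero_mem' := T.zero_mem
          add_mem' := by
            intro a b ha hb
            have := T.add_mem ha hb
            simpa using this
          smul_mem' := by
            intro c a ha
            have := T.smul_mem c ha
            simpa using this }
      have h3 := ideal_top (I := I) (fun x hx => (htr _ hx).2) (fun x hx y hy => by
        obtain ⟨z, hz⟩ := h2 y hy
        have := hbr _ hx _ hz
        have h5 : ((0 : M2), x * y - y * x) ∈ T := by simpa using this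
        exact h5) (x := y) hy hy0
      obtain ⟨z, hz⟩ := h1 se tr_se
      have h4 : ((0 : M2), z) ∈ T := h3 z (htr _ hz).2
      have h5 := T.sub_mem hz h4
      have h6 : (se, (0 : M2)) ∈ T := by simpa using h5
      have h7 := hI se h6
      have h8 := congrFun (congrFun h7 0) 1
      simp [se] at h8
    have huniq : ∀ x y y', (x, y) ∈ T → (x, y') ∈ T → y = y' := by
      intro x y y' hy hy'
      have := T.sub_mem hy hy'
      have h3 : ((0 : M2), y - y') ∈ T := by simpa using this
      exact sub_eq_zero.1 (hJ _ h3)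
    obtain ⟨e, he⟩ := h1 se tr_se
    obtain ⟨f, hf⟩ := h1 sf tr_sf
    obtain ⟨h, hh⟩ := h1 sh tr_sh
    obtain ⟨φ, hφ1, hφ2⟩ := exists_retr F
    have hrat : ∀ x y, (x, y) ∈ T → x.map φ = x → ∀ i j, y i j ∈ F := by
      intro x y hxy hx i j
      have h3 := hF φ _ hxy
      simp only at h3
      rw [hx] at h3
      have h4 := huniq _ _ _ hxy h3
      rw [h4]
      exact hφ1 _
    have r1 : h * e - e * h = (2 : ℂ) • e := by
      have h3 := hbr _ hh _ he
      have h4 := T.smul_mem (2 : ℂ) he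
      have h5 : sh * se - se * sh = (2 : ℂ) • se := by
        ext i j
        fin_cases i <;> fin_cases j <;> simp [se, sf, sh, Matrix.mul_apply, Fin.sum_univ_two]
        ring
      simp only [h5] at h3
      exact huniq _ _ _ h3 h4
    have r2 : e * f - f * e = h := by
      have h3 := hbr _ he _ hf
      have h5 : se * sf - sf * se = sh := by
        ext i j
        fin_cases i <;> fin_cases j <;> simp [se, sf, sh, Matrix.mul_apply, Fin.sum_univ_two]
      simp only [h5] at h3
      exact huniq _ _ _ h3 hh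
    have r3 : h * f - f * h = (-2 : ℂ) • f := by
      have h3 := hbr _ hh _ hf
      have h4 := T.smul_mem (-2 : ℂ) hf
      have h5 : sh * sf - sf * sh = (-2 : ℂ) • sf := by
        ext i j
        fin_cases i <;> fin_cases j <;> simp [se, sf, sh, Matrix.mul_apply, Fin.sum_univ_two]
        ring
      simp only [h5] at h3
      exact huniq _ _ _ h3 h4
    have he0 : e ≠ 0 := by
      rintro rfl
      have h7 := hI se he
      have h8 := congrFun (congrFun h7 0) 1
      simp [se] at h8
    have hφ0 : φ 0 = 0 := map_zero φ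
    have hφm : φ (-1) = -1 := by rw [map_neg, hφ2]
    obtain ⟨A, hA1, hA2, hAe, hAf, hAh⟩ := triple (F := F) (htr _ hh).2 (htr _ he).2 (htr _ hf).2
      (hrat _ _ hh (by
        ext i j
        fin_cases i <;> fin_cases j <;> simp [sh, hφ0, hφ2, hφm]))
      (hrat _ _ he (by
        ext i j
        fin_cases i <;> fin_cases j <;> simp [se, hφ0, hφ2]))
      (hrat _ _ hf (by
        ext i j
        fin_cases i <;> fin_cases j <;> simp [sf, hφ0, hφ2])) he0 r1 r2 r3
    refine ⟨A, hA1, hA2, ?_⟩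
    rintro ⟨x, y⟩ hp
    have hx := (htr _ hp).1
    simp only at hx ⊢
    have hex : x = x 0 0 • sh + x 0 1 • se + x 1 0 • sf := by
      conv_lhs => rw [eta2 hx]
      ext i j
      fin_cases i <;> fin_cases j <;> simp [se, sf, sh]
    have hy : y = x 0 0 • h + x 0 1 • e + x 1 0 • f := by
      refine huniq x _ _ hp ?_
      have h3 := T.add_mem (T.add_mem (T.smul_mem (x 0 0) hh) (T.smul_mem (x 0 1) he)) (T.smul_mem (x 1 0) hf)
      have h4 : x 0 0 • (sh, h) + x 0 1 • (se, e) + x 1 0 • (sf, f) =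
          (x, x 0 0 • h + x 0 1 • e + x 1 0 • f) := by
        ext1
        · exact hex.symm
        · rfl
      rw [← h4]
      exact h3
    rw [hy]
    conv_lhs => rw [hex]
    simp only [Matrix.mul_add, Matrix.add_mul, Matrix.mul_smul, Matrix.smul_mul, hAe, hAf, hAh]

end Pool.Agent.X306.EM
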