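import Pool.Agent.X306.EM.Crm

set_option autoImplicit false
set_option linter.unusedVariables false
set_option linter.unusedSectionVars false
set_option linter.unusedSimpArgs false

/-!
# Pairs of elliptic curves: the de Rham-Betti isomorphisms are isogenies
-/

open Filter MvPolynomial NumberField
open scoped Topology PeriodPair

noncomputable section

namespace Pool.Agent.X306.EM

open H667R3 W245.EB

/-- the quasi-periods of integral combinations -/
theorem eta_int (L : PeriodPair) (m n : ℤ) :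
    eta L (m * L.ω₁ + n * L.ω₂) = m * eta L L.ω₁ + n * eta L L.ω₂ := by
  let f : L.lattice →+ ℂ :=
    { toFun := fun x => eta L x
      map_zero' := by rw [ZeroMemClass.coe_zero, eta_zero]
      map_add' := fun x y => by
        rw [Submodule.coe_add, eta_add L x.2 y.2] }
  have h1 := map_add f (m • ⟨L.ω₁, L.ω₁_mem_lattice⟩) (n • ⟨L.ω₂, L.ω₂_mem_lattice⟩)
  rw [map_zsmul, map_zsmul] at h1
  have h2 : f (m • ⟨L.ω₁, L.ω₁_mem_lattice⟩ + n • ⟨L.ω₂, L.ω₂_mem_lattice⟩) =
      eta L (m * L.ω₁ + n * L.ω₂) := by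
    change eta L _ = _
    congr 1
    simp
  rw [h2] at h1
  rw [h1]
  change (m • eta L L.ω₁ + n • eta L L.ω₂ : ℂ) = _
  simp

theorem om1_ne (L : PeriodPair) : L.ω₁ ≠ 0 := by
  intro h0
  have := L.ω₁_div_two_notMem_lattice
  rw [h0, zero_div] at this
  exact this (zero_mem _)

/-- the determinant of the period matrix is not zero -/
theorem leg_ne (L : PeriodPair) : L.ω₁ * eta L L.ω₂ - L.ω₂ * eta L L.ω₁ ≠ 0 := by
  intro h
  obtain ⟨w, hw, h1⟩ := exists_quasi_period L (s := L.ω₁) (ρ := -eta L L.ω₁) (Or.inl (om1_ne L))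
  apply h1
  obtain ⟨m, n, e⟩ := PeriodPair.mem_lattice.1 hw
  rw [← e, eta_int]
  linear_combination (n : ℂ) * h

/-- Legendre's relation, up to an integral factor (copied from `Pool/Agent/TH813/EKBase.lean`) -/
theorem legendre (L : PeriodPair) : ∃ n : ℤ, n ≠ 0 ∧
    L.ω₁ * eta L L.ω₂ - L.ω₂ * eta L L.ω₁ = n * (2 * Real.pi * Complex.I) := by
  obtain ⟨C₁, hC₁, h₁⟩ := sigma_add_coe L L.ω₁_mem_lattice
  obtain ⟨C₂, hC₂, h₂⟩ := sigma_add_coe L L.ω₂_mem_lattice
  obtain ⟨z, hz⟩ : ∃ z, z ∉ L.lattice := by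
    obtain ⟨z, hz, -⟩ := exists_wp_eq L 0
    exact ⟨z, hz⟩
  have hs := sigma_ne_zero L hz
  have e1 := h₁ (z + L.ω₂)
  rw [h₂ z] at e1
  have e2 := h₂ (z + L.ω₁)
  rw [h₁ z] at e2
  have e3 : z + L.ω₂ + L.ω₁ = z + L.ω₁ + L.ω₂ := by ring
  rw [e3, e2] at e1
  have e4 : Complex.exp (eta L L.ω₂ * (z + L.ω₁)) * Complex.exp (eta L L.ω₁ * z) =
      Complex.exp (eta L L.ω₁ * (z + L.ω₂)) * Complex.exp (eta L L.ω₂ * z) := by
    apply mul_left_cancel₀ (mul_ne_zero (mul_ne_zero hC₁ hC₂) hs)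
    linear_combination e1
  rw [← Complex.exp_add, ← Complex.exp_add, Complex.exp_eq_exp_iff_exists_int] at e4
  obtain ⟨n, hn⟩ := e4
  have e5 : L.ω₁ * eta L L.ω₂ - L.ω₂ * eta L L.ω₁ = n * (2 * Real.pi * Complex.I) := by
    linear_combination hn
  refine ⟨n, ?_, e5⟩
  rintro rfl
  apply leg_ne L
  rw [e5, Int.cast_zero, zero_mul]

/-- If the period matrices of two elliptic curves over the algebraic numbers are related by a rational matrix on
the Betti side and an algebraic matrix on the de Rham side, the curves are isogenous. -/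
theorem pair_false {L L' : PeriodPair} (h2 : IsAlgebraic ℚ L.g₂) (h3 : IsAlgebraic ℚ L.g₃)
    (h2' : IsAlgebraic ℚ L'.g₂) (h3' : IsAlgebraic ℚ L'.g₃)
    (hiso : ∀ α : ℂ, (∀ w ∈ L'.lattice, α * w ∈ L.lattice) → α = 0)
    (A : Fin 2 → Fin 2 → ℤ) (hA : A 0 0 * A 1 1 - A 0 1 * A 1 0 ≠ 0) (a b : ℂ) (ha : IsAlgebraic ℚ a)
    (hb : IsAlgebraic ℚ b)
    (e1 : A 0 0 * L.ω₁ + A 0 1 * L.ω₂ = L'.ω₁ * a + eta L' L'.ω₁ * b)
    (e2 : A 1 0 * L.ω₁ + A 1 1 * L.ω₂ = L'.ω₂ * a + eta L' L'.ω₂ * b) : False := by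
  have hm1 : (A 0 0 * L.ω₁ + A 0 1 * L.ω₂ : ℂ) ∈ L.lattice := PeriodPair.mem_lattice.2 ⟨_, _, rfl⟩
  have hm2 : (A 1 0 * L.ω₁ + A 1 1 * L.ω₂ : ℂ) ∈ L.lattice := PeriodPair.mem_lattice.2 ⟨_, _, rfl⟩
  by_cases hb0 : b = 0
  · have h1 : a = 0 := by
      apply hiso
      intro w hw
      obtain ⟨m, n, e⟩ := PeriodPair.mem_lattice.1 hw
      have h5 : a * w = m • (A 0 0 * L.ω₁ + A 0 1 * L.ω₂ : ℂ) + n • (A 1 0 * L.ω₁ + A 1 1 * L.ω₂ : ℂ) := by
        rw [e1, e2, hb0, ← e]
        simp only [zsmul_eq_mul]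
        ring
      rw [h5]
      exact add_mem (zsmul_mem hm1 _) (zsmul_mem hm2 _)
    apply om1_ne L
    have hA' : ((A 0 0 * A 1 1 - A 0 1 * A 1 0 : ℤ) : ℂ) ≠ 0 := by exact_mod_cast hA
    push_cast at hA'
    rw [h1, hb0] at e1 e2
    have h6 : ((A 0 0 : ℂ) * A 1 1 - A 0 1 * A 1 0) * L.ω₁ = 0 := by
      linear_combination (A 1 1 : ℂ) * e1 - (A 0 1 : ℂ) * e2
    exact (mul_eq_zero.1 h6).resolve_left hA'
  · have hdet := leg_ne L'
    set U : Fin 2 → Fin 2 → ℂ := ![![L'.ω₁, A 0 0 * L.ω₁ + A 0 1 * L.ω₂], ![L'.ω₂, A 1 0 * L.ω₁ + A 1 1 * L.ω₂]] with hU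
    refine crm (n := 2) (L := ![L', L]) (s := ![1, 0]) (ρ := ![a / b, -1 / b]) (U := U) ?_ ?_ two_pos ?_ ?_ 0 ?_ ?_ ?_ ?_
    · intro j; fin_cases j
      · exact h2'
      · exact h2
    · intro j; fin_cases j
      · exact h3'
      · exact h3
    · intro j; fin_cases j
      · exact isAlgebraic_one
      · exact isAlgebraic_zero
    · intro j; fin_cases j
      · exact ha.mul hb.inv
      · exact isAlgebraic_one.neg.mul hb.inv
    · left
      simp
    · rw [LinearIndependent.pair_iff]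
      intro x y hxy
      have k0 := congrFun hxy 0
      have k1 := congrFun hxy 1
      simp only [hU, Pi.add_apply, Pi.smul_apply, Matrix.cons_val_zero, Matrix.cons_val_one, smul_eq_mul,
        Pi.zero_apply] at k0 k1
      rw [e1, e2] at k1
      have k2 : x * eta L' L'.ω₁ + y * eta L' L'.ω₂ = 0 := by
        have : b * (x * eta L' L'.ω₁ + y * eta L' L'.ω₂) = 0 := by
          linear_combination k1 - a * k0
        exact (mul_eq_zero.1 this).resolve_left hb0
      constructor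
      · have : x * (L'.ω₁ * eta L' L'.ω₂ - L'.ω₂ * eta L' L'.ω₁) = 0 := by
          linear_combination eta L' L'.ω₂ * k0 - L'.ω₂ * k2
        exact (mul_eq_zero.1 this).resolve_right hdet
      · have : y * (L'.ω₁ * eta L' L'.ω₂ - L'.ω₂ * eta L' L'.ω₁) = 0 := by
          linear_combination L'.ω₁ * k2 - eta L' L'.ω₁ * k0
        exact (mul_eq_zero.1 this).resolve_right hdet
    · intro k j
      fin_cases k <;> fin_cases j
      · exact Or.inl L'.ω₁_mem_lattice
      · exact Or.inl hm1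
      · exact Or.inl L'.ω₂_mem_lattice
      · exact Or.inl hm2
    · intro k
      have h0 : ∀ x : ℂ, x = 0 → IsAlgebraic ℚ x := by rintro x rfl; exact isAlgebraic_zero
      apply h0
      fin_cases k
      · simp only [hU, Fin.sum_univ_two, Matrix.cons_val_zero, Matrix.cons_val_one, Fin.zero_eta, Fin.isValue,
          zt_of_mem L'.ω₁_mem_lattice]
        rw [e1]
        field_simp
        ring
      · simp only [hU, Fin.sum_univ_two, Matrix.cons_val_zero, Matrix.cons_val_one, Fin.mk_one, Fin.isValue,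
          zt_of_mem L'.ω₂_mem_lattice]
        rw [e2]
        field_simp
        ring

end Pool.Agent.X306.EM
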