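import Pool.Agent.X306.EM.Gour
import Pool.Agent.X306.EM.Pair
import Pool.Agent.W245.EB.RedZ
import Pool.Agent.H297R2.InBakerThm

set_option autoImplicit false
set_option linter.unusedVariables false
set_option linter.unusedSectionVars false
set_option linter.unusedSimpArgs false

/-!
# The periods of elliptic and multiplicative 1-motives: linear independence
-/

open scoped PeriodPair
open Module Matrix

noncomputable section

namespace Pool.Agent.X306.EM

open H667R3 W245.EB Pool.Agent.TH119.MX Pool.Agent.TH119.DR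

variable {C : Type} [Fintype C] [DecidableEq C] {R : C → Type} [∀ c, Fintype (R c)]
  [∀ c, DecidableEq (R c)] {J : Type} [Fintype J] [DecidableEq J]

theorem per_mul {a b c d : ℂ} (h : a * d - b * c ≠ 0) :
    !![a, b; c, d] * ((a * d - b * c)⁻¹ • !![d, -b; -c, a]) = (1 : M2) := by
  have e : !![a, b; c, d] * !![d, -b; -c, a] = (a * d - b * c) • (1 : M2) := by
    ext i j
    fin_cases i <;> fin_cases j <;> simp [Matrix.mul_apply, Fin.sum_univ_two] <;> ring
  rw [Matrix.mul_smul, e, smul_smul, inv_mul_cancel₀ h, one_smul]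

theorem mul_per {a b c d : ℂ} (h : a * d - b * c ≠ 0) :
    ((a * d - b * c)⁻¹ • !![d, -b; -c, a]) * !![a, b; c, d] = (1 : M2) := by
  have e : !![d, -b; -c, a] * !![a, b; c, d] = (a * d - b * c) • (1 : M2) := by
    ext i j
    fin_cases i <;> fin_cases j <;> simp [Matrix.mul_apply, Fin.sum_univ_two] <;> ring
  rw [Matrix.smul_mul, e, smul_smul, inv_mul_cancel₀ h, one_smul]

theorem leg_ne' (L : PeriodPair) : L.ω₁ * eta L L.ω₂ - eta L L.ω₁ * L.ω₂ ≠ 0 := by
  have := leg_ne L
  intro h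
  apply this
  linear_combination h

/-- the periods of the sum of the `1`-motives -/
def pers (L : C → PeriodPair) (u : (c : C) → R c → ℂ) (l : J → ℂ) : Per C R J where
  P c := !![(L c).ω₁, eta (L c) (L c).ω₁; (L c).ω₂, eta (L c) (L c).ω₂]
  P' c := ((L c).ω₁ * eta (L c) (L c).ω₂ - eta (L c) (L c).ω₁ * (L c).ω₂)⁻¹ •
    !![eta (L c) (L c).ω₂, -eta (L c) (L c).ω₁; -(L c).ω₂, (L c).ω₁]
  PP' c := per_mul (leg_ne' (L c))
  P'P c := mul_per (leg_ne' (L c))
  U c := Matrix.of fun r j => ![u c r, zeta (L c) (u c r)] j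
  w := 2 * Real.pi * Complex.I
  w0 := Complex.two_pi_I_ne_zero
  l := l

theorem pers_leg (L : C → PeriodPair) (u : (c : C) → R c → ℂ) (l : J → ℂ) : Leg (pers L u l) := by
  intro c
  obtain ⟨n, hn, h⟩ := legendre (L c)
  refine ⟨n, isAlgebraic_algebraMap (R := ℚ) (A := ℂ) (n : ℚ) |> fun h => by simpa using h, ?_⟩
  change (!![(L c).ω₁, eta (L c) (L c).ω₁; (L c).ω₂, eta (L c) (L c).ω₂] : M2).det = n * (2 * Real.pi * Complex.I)
  rw [Matrix.det_fin_two_of, ← h]
  ring

/-- the linear independence of integrals of the second kind, for families with arbitrary index sets -/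
theorem second_fin {L : PeriodPair} (h2 : IsAlgebraic ℚ L.g₂) (h3 : IsAlgebraic ℚ L.g₃) {ι : Type} [Fintype ι]
    (l : ι → ℂ) (hl : ∀ r, l r ∈ EL L)
    (hind : ∀ α : ι → ℂ, (∀ r, α r ∈ kL L) → ∑ r, α r * l r = 0 → α = 0)
    (s ρ : ℂ) (hs : IsAlgebraic ℚ s) (hρ : IsAlgebraic ℚ ρ) (hsρ : s ≠ 0 ∨ ρ ≠ 0)
    (γ : ι → ℂ) (hγ : ∀ r, IsAlgebraic ℚ (γ r))
    (h0 : IsAlgebraic ℚ (∑ r, γ r * (s * zt L (l r) + ρ * l r))) : γ = 0 := by
  classical
  let e := Fintype.equivFin ι
  have h4 := second_kind h2 h3 (fun r => l (e.symm r)) (fun r => hl _) (by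
    intro α hα hsum
    have h5 := hind (fun j => α (e j)) (fun j => hα _) (by
      rw [← hsum, ← e.symm.sum_comp]
      simp)
    funext r
    have := congrFun h5 (e.symm r)
    simpa using this) s ρ hs hρ hsρ (fun r => γ (e.symm r)) (fun r => hγ _) (by
      have h6 : ∑ r, γ (e.symm r) * (s * zt L (l (e.symm r)) + ρ * l (e.symm r)) =
          ∑ r, γ r * (s * zt L (l r) + ρ * l r) :=
        e.symm.sum_comp (fun r => γ r * (s * zt L (l r) + ρ * l r))
      rw [h6]
      exact h0)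
  funext j
  have := congrFun h4 (e j)
  simpa using this

/-- the multiplications of a lattice without complex multiplication -/
theorem kL_rat {L : PeriodPair}
    (hCM : ∀ α : ℂ, (∀ w ∈ L.lattice, α * w ∈ L.lattice) → ∃ n : ℤ, α = n) {α : ℂ} (hα : α ∈ kL L) :
    ∃ q : ℚ, α = q := by
  obtain ⟨m, hm, h⟩ := hα
  obtain ⟨n, hn⟩ := hCM (m * α) h
  refine ⟨n / m, ?_⟩
  have : (m : ℂ) ≠ 0 := by exact_mod_cast hm.ne'
  push_cast
  field_simp
  linear_combination hn

theorem om_indep (L : PeriodPair) {m n : ℤ} (h : (m : ℂ) * L.ω₁ + n * L.ω₂ = 0) : m = 0 ∧ n = 0 := by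
  have h1 := L.indep
  rw [LinearIndependent.pair_iff] at h1
  have h2 := h1 (m : ℝ) (n : ℝ) (by
    simp only [Complex.real_smul]
    push_cast
    exact h)
  exact ⟨by exact_mod_cast h2.1, by exact_mod_cast h2.2⟩

theorem ell_ind {L : PeriodPair} {ι : Type} [Fintype ι]
    (hCM : ∀ α : ℂ, (∀ w ∈ L.lattice, α * w ∈ L.lattice) → ∃ n : ℤ, α = n) (u : ι → ℂ)
    (hui : ∀ n : ι → ℤ, ∑ r, (n r : ℂ) * u r ∈ L.lattice → n = 0)
    (α : Fin 2 ⊕ ι → ℂ) (hα : ∀ r, α r ∈ kL L)
    (hsum : ∑ r, α r * (Sum.elim ![L.ω₁, L.ω₂] u : Fin 2 ⊕ ι → ℂ) r = 0) : α = 0 := by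
  classical
  choose q hq using fun r => kL_rat hCM (hα r)
  obtain ⟨D, hD, hc⟩ := exists_den_rat q
  choose b hb using hc
  have hDC : (D : ℂ) ≠ 0 := by exact_mod_cast hD.ne'
  have hbC : ∀ r, (D : ℂ) * α r = b r := by
    intro r
    rw [hq]
    exact_mod_cast hb r
  have h1 : ∑ r, (b r : ℂ) * (Sum.elim ![L.ω₁, L.ω₂] u : Fin 2 ⊕ ι → ℂ) r = 0 := by
    have : ∑ r, (b r : ℂ) * (Sum.elim ![L.ω₁, L.ω₂] u : Fin 2 ⊕ ι → ℂ) r =
        (D : ℂ) * ∑ r, α r * (Sum.elim ![L.ω₁, L.ω₂] u : Fin 2 ⊕ ι → ℂ) r := by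
      rw [Finset.mul_sum]
      refine Finset.sum_congr rfl fun r _ => ?_
      rw [← hbC]
      ring
    rw [this, hsum, mul_zero]
  rw [Fintype.sum_sum_type] at h1
  simp only [Sum.elim_inl, Sum.elim_inr, Fin.sum_univ_two, Matrix.cons_val_zero, Matrix.cons_val_one] at h1
  have h2 : (fun r => b (Sum.inr r)) = 0 := by
    apply hui
    have : ∑ r, (b (Sum.inr r) : ℂ) * u r = -((b (Sum.inl 0) : ℂ) * L.ω₁ + b (Sum.inl 1) * L.ω₂) := by
      linear_combination h1
    rw [this]
    exact neg_mem (PeriodPair.mem_lattice.2 ⟨_, _, rfl⟩)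
  have h3 : ∀ r, b (Sum.inr r) = 0 := fun r => congrFun h2 r
  simp only [h3, Int.cast_zero, zero_mul, Finset.sum_const_zero, add_zero] at h1
  obtain ⟨h4, h5⟩ := om_indep L h1
  have h6 : ∀ r, b r = 0 := by
    rintro (r | r)
    · fin_cases r
      · exact h4
      · exact h5
    · exact h3 r
  funext r
  have h7 := hbC r
  rw [h6, Int.cast_zero] at h7
  exact (mul_eq_zero.1 h7).resolve_left hDC

theorem log_ind {l : J → ℂ} (hli : ∀ n : J → ℤ, Complex.exp (∑ j, (n j : ℂ) * l j) = 1 → n = 0) :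
    LinearIndependent ℚ (fun o : Option J => o.elim (2 * Real.pi * Complex.I) l) := by
  classical
  rw [Fintype.linearIndependent_iff]
  intro g hg
  obtain ⟨D, hD, hc⟩ := exists_den_rat g
  choose b hb using hc
  have hDC : (D : ℂ) ≠ 0 := by exact_mod_cast hD.ne'
  have hbC : ∀ r, (D : ℂ) * (g r : ℂ) = b r := by
    intro r
    exact_mod_cast hb r
  rw [Fintype.sum_option] at hg
  simp only [Option.elim, Algebra.smul_def, eq_ratCast] at hg
  have h1 : (b none : ℂ) * (2 * Real.pi * Complex.I) + ∑ j, (b (some j) : ℂ) * l j = 0 := by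
    have : (b none : ℂ) * (2 * Real.pi * Complex.I) + ∑ j, (b (some j) : ℂ) * l j =
        D * ((g none : ℂ) * (2 * Real.pi * Complex.I) + ∑ j, (g (some j) : ℂ) * l j) := by
      rw [mul_add, Finset.mul_sum, ← hbC]
      congr 1
      · ring
      · refine Finset.sum_congr rfl fun j _ => ?_
        rw [← hbC]
        ring
    rw [this, hg, mul_zero]
  have h2 : (fun j => b (some j)) = 0 := by
    apply hli
    rw [Complex.exp_eq_one_iff]
    refine ⟨-b none, ?_⟩
    push_cast
    linear_combination h1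
  have h3 : ∀ j, b (some j) = 0 := fun j => congrFun h2 j
  have h4 : b none = 0 := by
    simp only [h3, Int.cast_zero, zero_mul, Finset.sum_const_zero, add_zero] at h1
    have := (mul_eq_zero.1 h1).resolve_right Complex.two_pi_I_ne_zero
    exact_mod_cast this
  have h5 : ∀ o, b o = 0 := by
    rintro (_ | j)
    · exact h4
    · exact h3 j
  intro o
  have h7 := hbC o
  rw [h5, Int.cast_zero] at h7
  have := (mul_eq_zero.1 h7).resolve_left hDC
  exact_mod_cast this

/-- **The linear independence of the periods.** -/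
theorem pers_indep {L : C → PeriodPair} (h2 : ∀ c, IsAlgebraic ℚ (L c).g₂) (h3 : ∀ c, IsAlgebraic ℚ (L c).g₃)
    (hCM : ∀ c, ∀ α : ℂ, (∀ w ∈ (L c).lattice, α * w ∈ (L c).lattice) → ∃ n : ℤ, α = n)
    {u : (c : C) → R c → ℂ} (hu : ∀ c r, u c r ∉ (L c).lattice ∧ IsAlgebraic ℚ (℘[L c] (u c r)))
    (hui : ∀ c, ∀ n : R c → ℤ, ∑ r, (n r : ℂ) * u c r ∈ (L c).lattice → n = 0)
    {l : J → ℂ} (hl : ∀ j, IsAlgebraic ℚ (Complex.exp (l j)))
    (hli : ∀ n : J → ℤ, Complex.exp (∑ j, (n j : ℂ) * l j) = 1 → n = 0) :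
    Indep (pers L u l) QB where
  lin := by
    intro c q hq hqK ν hν a ha hmem
    have hγ := second_fin (h2 c) (h3 c) (Sum.elim ![(L c).ω₁, (L c).ω₂] (u c) : Fin 2 ⊕ R c → ℂ) (by
      rintro (r | r)
      · fin_cases r
        · exact Or.inl (L c).ω₁_mem_lattice
        · exact Or.inl (L c).ω₂_mem_lattice
      · exact Or.inr (hu c r).2) (ell_ind (hCM c) (u c) (hui c)) (q 1) (q 0) (mem_QB.1 (hqK 1))
      (mem_QB.1 (hqK 0)) (by
        by_contra hcon
        push Not at hcon
        apply hq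
        funext i
        fin_cases i
        · exact hcon.2
        · exact hcon.1) (Sum.elim ν a : Fin 2 ⊕ R c → ℂ) (by
        rintro (r | r)
        · exact mem_QB.1 (hν r)
        · exact mem_QB.1 (ha r)) (by
        rw [Fintype.sum_sum_type]
        simp only [Sum.elim_inl, Sum.elim_inr]
        have h5 := mem_QB.1 hmem
        refine (congrArg (IsAlgebraic ℚ) ?_).mp h5
        congr 1
        · simp only [pers, dotProduct, Matrix.mulVec, Fin.sum_univ_two, Matrix.of_apply, Matrix.cons_val',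
            Matrix.cons_val_zero, Matrix.cons_val_one, Matrix.cons_val_fin_one,
            zt_of_mem (L c).ω₁_mem_lattice, zt_of_mem (L c).ω₂_mem_lattice]
          ring
        · simp only [pers, dotProduct, Matrix.mulVec, Fin.sum_univ_two, Matrix.of_apply,
            Matrix.cons_val_zero, Matrix.cons_val_one]
          refine Finset.sum_congr rfl fun r _ => ?_
          rw [zt_of_notMem (hu c r).1]
          ring)
    constructor
    · funext i
      exact congrFun hγ (Sum.inl i)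
    · funext i
      exact congrFun hγ (Sum.inr i)
  log := by
    intro a ha μ hμ hmem
    have h5 := mem_QB.1 hmem
    have h6 := Pool.Agent.H297R2.baker_inhom (fun o : Option J => o.elim (2 * Real.pi * Complex.I) l) (by
      rintro (_ | j)
      · simp only [Option.elim]
        rw [Complex.exp_two_pi_mul_I]
        exact isAlgebraic_one
      · exact hl j) (log_ind hli) (-(a * (2 * Real.pi * Complex.I) + μ ⬝ᵥ l)) h5.neg
      (fun o => o.elim a μ) (by
      rintro (_ | j)
      · exact mem_QB.1 ha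
      · exact mem_QB.1 (hμ j)) (by
      rw [Fintype.sum_option]
      simp only [Option.elim, dotProduct]
      ring)
    exact ⟨h6.2 none, funext fun j => h6.2 (some j)⟩

end Pool.Agent.X306.EM
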