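import Pool.Agent.X306.EM.Main
import Pool.Agent.TH127.PT.Defs

set_option autoImplicit false
set_option linter.unusedVariables false
set_option linter.unusedSectionVars false
set_option linter.unusedSimpArgs false

/-!
# Algebraic points of subtorsors
-/

open Module Matrix MvPolynomial

noncomputable section

namespace Pool.Agent.X306.EM

open W245.EB Pool.Agent.TH119.MX Pool.Agent.TH119.DR Pool.Agent.TH127.PT

variable {B : Type} [Fintype B] [DecidableEq B]

/-- lifting of polynomials -/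
theorem exists_lift (p : MvPolynomial (B × B) ℂ) (hp : ∀ m, p.coeff m ∈ QB) :
    ∃ p' : MvPolynomial (B × B) (algebraicClosure ℚ ℂ), p'.map (algebraMap (algebraicClosure ℚ ℂ) ℂ) = p := by
  classical
  refine ⟨∑ m ∈ p.support, monomial m ⟨p.coeff m, hp m⟩, ?_⟩
  rw [map_sum]
  conv_rhs => rw [← p.support_sum_monomial_coeff]
  refine Finset.sum_congr rfl fun m _ => ?_
  rw [map_monomial]
  rfl

/-- a system of polynomial equations over the algebraic numbers with an invertible solution has one over the algebraic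
numbers -/
theorem exists_alg_point (I : Set (MvPolynomial (B × B) ℂ)) (hI : ∀ p ∈ I, ∀ m, p.coeff m ∈ QB)
    (c : Matrix B B ℂ) (hc : IsUnit c) (h0 : ∀ p ∈ I, eval (fun b => c b.1 b.2) p = 0) :
    ∃ x : Matrix B B ℂ, IsUnit x ∧ (∀ i j, x i j ∈ QB) ∧ ∀ p ∈ I, eval (fun b => x b.1 b.2) p = 0 := by
  classical
  let k := algebraicClosure ℚ ℂ
  let g : Matrix B B (MvPolynomial (Option (B × B)) k) := Matrix.of fun i j => X (some (i, j))
  let J : Ideal (MvPolynomial (Option (B × B)) k) := Ideal.span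
    ({f | ∃ p' : MvPolynomial (B × B) k, p'.map (algebraMap k ℂ) ∈ I ∧ f = rename some p'} ∪ {X none * g.det - 1})
  have hev : ∀ (x : B × B → ℂ) (y : ℂ) (p' : MvPolynomial (B × B) k),
      aeval (fun o : Option (B × B) => o.elim y x) (rename some p') = eval x (p'.map (algebraMap k ℂ)) := by
    intro x y p'
    rw [aeval_rename, eval_map, aeval_def]
    rfl
  have hJ : J ≠ ⊤ := by
    intro htop
    have h1 : J ≤ RingHom.ker (aeval (fun o : Option (B × B) => o.elim (c.det)⁻¹ fun b => c b.1 b.2) :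
        MvPolynomial (Option (B × B)) k →ₐ[k] ℂ).toRingHom := by
      rw [Ideal.span_le]
      rintro f (⟨p', hp', rfl⟩ | hf)
      · change aeval _ _ = (0 : ℂ)
        rw [hev]
        exact h0 _ hp'
      · rw [Set.mem_singleton_iff.1 hf]
        change aeval _ _ = (0 : ℂ)
        rw [map_sub, map_mul, map_one, aeval_X, AlgHom.map_det]
        have h2 : (aeval (fun o : Option (B × B) => o.elim (c.det)⁻¹ fun b => c b.1 b.2) :
            MvPolynomial (Option (B × B)) k →ₐ[k] ℂ).mapMatrix g = c := by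
          ext i j
          simp [g]
        rw [h2]
        have h3 : c.det ≠ 0 := ((Matrix.isUnit_iff_isUnit_det _).1 hc).ne_zero
        simp [h3]
    have h2 : (1 : MvPolynomial (Option (B × B)) k) ∈ J := by rw [htop]; trivial
    have h3 := h1 h2
    rw [RingHom.mem_ker, map_one] at h3
    exact one_ne_zero h3
  have hcl : IsAlgClosed k := (algebraicClosure.isAlgClosure ℚ ℂ).isAlgClosed
  obtain ⟨M, hM, hJM⟩ := Ideal.exists_le_maximal J hJ
  obtain ⟨x, hx⟩ := (MvPolynomial.isMaximal_iff_eq_vanishingIdeal_singleton (K := k) (I := M)).1 hM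
  have hvan : ∀ f ∈ J, aeval x f = (0 : k) := by
    intro f hf
    have h1 := hJM hf
    rw [hx, mem_vanishingIdeal_iff] at h1
    exact h1 x rfl
  have hxC : ∀ p' : MvPolynomial (Option (B × B)) k,
      aeval (fun o => (x o : ℂ)) p' = ((aeval x p' : k) : ℂ) := by
    intro p'
    exact MvPolynomial.aeval_algebraMap_apply ℂ x p'
  have hfun : (fun o => (x o : ℂ)) = fun o : Option (B × B) => o.elim (x none : ℂ) (fun b => (x (some b) : ℂ)) := by
    funext o
    cases o <;> rfl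
  refine ⟨Matrix.of fun i j => (x (some (i, j)) : ℂ), ?_, fun i j => ?_, fun p hp => ?_⟩
  · have h1 := hvan (X none * g.det - 1) (Ideal.subset_span (Or.inr rfl))
    have h2 := hxC (X none * g.det - 1)
    rw [h1, ZeroMemClass.coe_zero, map_sub, map_mul, map_one, aeval_X, AlgHom.map_det] at h2
    have h3 : (aeval (fun o => (x o : ℂ)) : MvPolynomial (Option (B × B)) k →ₐ[k] ℂ).mapMatrix g =
        Matrix.of fun i j => (x (some (i, j)) : ℂ) := by
      ext i j
      simp [g]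
    rw [h3] at h2
    rw [Matrix.isUnit_iff_isUnit_det, isUnit_iff_ne_zero]
    intro h4
    rw [h4, mul_zero, zero_sub, neg_eq_zero] at h2
    exact one_ne_zero h2
  · exact (x (some (i, j))).2
  · obtain ⟨p', hp'⟩ := exists_lift p (hI p hp)
    have h1 := hvan (rename some p') (Ideal.subset_span (Or.inl ⟨p', by rw [hp']; exact hp, rfl⟩))
    have h2 := hxC (rename some p')
    rw [h1, ZeroMemClass.coe_zero, hfun, hev, hp'] at h2
    exact h2

/-- the group of a subtorsor is an algebraic group -/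
theorem grp_of_torsor {F : Subfield ℂ} {T : Set (Matrix B B ℂ)} (hT : IsSubtorsor QB T)
    (hG : ∃ I : Set (MvPolynomial (B × B) ℂ), (∀ p ∈ I, ∀ m, p.coeff m ∈ F) ∧
      ∀ g : Matrix B B ℂ, (∃ x ∈ T, ∃ y ∈ T, g = x * y⁻¹) ↔ IsUnit g ∧
        ∀ p ∈ I, eval (fun b => g b.1 b.2) p = 0) {c : Matrix B B ℂ} (hc : c ∈ T) :
    ∃ H : Set (Matrix B B ℂ), AlgGrp F H ∧ (∀ g ∈ H, g * c ∈ T) ∧ ∃ A A' : Matrix B B ℂ, A * A' = 1 ∧
      (∀ i j, A' i j ∈ QB) ∧ c * A ∈ H := by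
  obtain ⟨I, hI1, hI2⟩ := hG
  obtain ⟨I', hI'1, hI'2⟩ := hT.algebraic
  obtain ⟨x, hx1, hx2, hx3⟩ := exists_alg_point I' hI'1 c ((hI'2 c).1 hc).1 ((hI'2 c).1 hc).2
  have hxT : x ∈ T := (hI'2 x).2 ⟨hx1, hx3⟩
  have hinv : ∀ y ∈ T, y * y⁻¹ = 1 ∧ y⁻¹ * y = 1 := fun y hy =>
    ⟨Matrix.mul_nonsing_inv _ ((Matrix.isUnit_iff_isUnit_det _).1 (hT.isUnit y hy)),
      Matrix.nonsing_inv_mul _ ((Matrix.isUnit_iff_isUnit_det _).1 (hT.isUnit y hy))⟩
  refine ⟨{g | ∃ x ∈ T, ∃ y ∈ T, g = x * y⁻¹}, ⟨?_, ?_, ?_, I, hI1, fun g => ?_⟩, ?_, x⁻¹, x, (hinv x hxT).2, hx2,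
    c, hc, x, hxT, rfl⟩
  · exact ⟨c, hc, c, hc, (hinv c hc).1.symm⟩
  · rintro _ ⟨a, ha, b, hb, rfl⟩ _ ⟨a', ha', b', hb', rfl⟩
    exact ⟨a * b⁻¹ * a', hT.torsor a ha b hb a' ha', b', hb', by simp only [Matrix.mul_assoc]⟩
  · rintro _ ⟨a, ha, b, hb, rfl⟩
    refine ⟨b * a⁻¹, ⟨b, hb, a, ha, rfl⟩, ?_, ?_⟩
    · calc a * b⁻¹ * (b * a⁻¹) = a * (b⁻¹ * b) * a⁻¹ := by simp only [Matrix.mul_assoc]
        _ = 1 := by rw [(hinv b hb).2, Matrix.mul_one, (hinv a ha).1]
    · calc b * a⁻¹ * (a * b⁻¹) = b * (a⁻¹ * a) * b⁻¹ := by simp only [Matrix.mul_assoc]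
        _ = 1 := by rw [(hinv a ha).2, Matrix.mul_one, (hinv b hb).1]
  · change (∃ x ∈ T, ∃ y ∈ T, g = x * y⁻¹) ↔ _
    rw [hI2 g]
    refine and_congr ⟨fun h => ?_, fun ⟨g', h1, h2⟩ => ?_⟩ Iff.rfl
    · exact ⟨g⁻¹, Matrix.mul_nonsing_inv _ ((Matrix.isUnit_iff_isUnit_det _).1 h),
        Matrix.nonsing_inv_mul _ ((Matrix.isUnit_iff_isUnit_det _).1 h)⟩
    · exact ⟨⟨g, g', h1, h2⟩, rfl⟩
  · rintro _ ⟨a, ha, b, hb, rfl⟩
    exact hT.torsor a ha b hb c hc

end Pool.Agent.X306.EM
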